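import Mathlib
import Pool.Agent.H705R2.ABC.Defs

/-!
# From the count by height to the count by radical
-/

set_option autoImplicit false

namespace Pool.Agent.U663.DP

open Pool.Agent.H785R2.ABC (IsABCTriple rad)
open Pool.Agent.H705R2.ABC (StmtCount)

/-- the exponent as a function of `lam = 1 / M` -/
noncomputable def Gx (l : ℝ) : ℝ :=
  if l ≤ 9 / 16 then 5 * l / 9
  else if l ≤ 3 / 4 then (16 * l + 1) / 32
  else if l ≤ 19 / 20 then (61 * l + 3) / 120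
  else (52 * l + 4) / 105

theorem Gx_pos (l : ℝ) (h : 0 < l) : 0 < Gx l := by
  unfold Gx
  split_ifs <;> positivity

theorem Gx_le (l : ℝ) (h : 0 < l) : Gx l ≤ 5 * l / 9 := by
  unfold Gx
  split_ifs with h1 h2 h3
  · exact le_rfl
  · push Not at h1
    linarith
  · push Not at h1 h2
    linarith
  · push Not at h1 h2 h3
    linarith

/-- auxiliary set: `c ≤ X ^ T` and `rad ≤ c ^ lam` -/
def S (T lam : ℝ) (X : ℕ) : Set (ℕ × ℕ × ℕ) :=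
  {t | IsABCTriple t.1 t.2.1 t.2.2 ∧ (t.2.2 : ℝ) ≤ (X : ℝ) ^ T ∧
    (rad (t.1 * t.2.1 * t.2.2) : ℝ) ≤ (t.2.2 : ℝ) ^ lam}

/-- auxiliary set: `c ≤ X ^ T`, `rad ≤ X` and `rad ≤ c` -/
def P (T : ℝ) (X : ℕ) : Set (ℕ × ℕ × ℕ) :=
  {t | IsABCTriple t.1 t.2.1 t.2.2 ∧ (t.2.2 : ℝ) ≤ (X : ℝ) ^ T ∧
    rad (t.1 * t.2.1 * t.2.2) ≤ X ∧ rad (t.1 * t.2.1 * t.2.2) ≤ t.2.2}

theorem fin_aux (Z : Set (ℕ × ℕ × ℕ)) (N : ℕ)
    (h : ∀ t ∈ Z, IsABCTriple t.1 t.2.1 t.2.2 ∧ t.2.2 ≤ N) : Z.Finite := by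
  refine Set.Finite.subset (Finset.finite_toSet
      ((Finset.range (N + 1)) ×ˢ (Finset.range (N + 1)) ×ˢ (Finset.range (N + 1)))) ?_
  rintro ⟨a, b, c⟩ ht
  obtain ⟨⟨h1, h2, h3, h4, h5⟩, h6⟩ := h _ ht
  simp only at h1 h2 h4 h6
  simp only [Finset.coe_product, Set.mem_prod, Finset.coe_range, Set.mem_Iio]
  omega

theorem S_fin (T lam : ℝ) (X : ℕ) : (S T lam X).Finite := by
  refine fin_aux _ ⌊(X : ℝ) ^ T⌋₊ ?_
  rintro t ⟨h1, h2, h3⟩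
  exact ⟨h1, Nat.le_floor h2⟩

theorem P_fin (T : ℝ) (X : ℕ) : (P T X).Finite := by
  refine fin_aux _ ⌊(X : ℝ) ^ T⌋₊ ?_
  rintro t ⟨h1, h2, h3⟩
  exact ⟨h1, Nat.le_floor h2⟩

theorem S_card (hcount : ∀ l : ℝ, 0 < l → l ≤ 1 → StmtCount l (Gx l)) (ε t : ℝ) (hε : 0 < ε)
    (ht : 1 ≤ t) : ∃ C : ℝ, 0 ≤ C ∧ ∀ X : ℕ, 1 ≤ X →
    ((S (t + ε / 2) (1 / t) X).ncard : ℝ) ≤ C * (X : ℝ) ^ (5 / 9 + ε : ℝ) := by
  have ht0 : 0 < t := by linarith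
  have hlam : 1 / t ≤ 1 := by
    rw [div_le_one ht0]
    exact ht
  have hl0 : 0 < 1 / t := by positivity
  have hd : 0 < t + ε / 2 := by linarith
  obtain ⟨C, hC⟩ := hcount (1 / t) (by positivity) hlam
    (ε / (2 * (t + ε / 2))) (by positivity)
  refine ⟨|C|, abs_nonneg C, fun X hX => ?_⟩
  have hX1 : (1 : ℝ) ≤ X := by exact_mod_cast hX
  have hX0 : (0 : ℝ) < X := by linarith
  set N : ℕ := ⌊(X : ℝ) ^ (t + ε / 2)⌋₊ with hN
  have hN1 : 1 ≤ N := Nat.le_floor (by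
    rw [Nat.cast_one]
    exact Real.one_le_rpow hX1 hd.le)
  have hNX : (N : ℝ) ≤ (X : ℝ) ^ (t + ε / 2) := Nat.floor_le (by positivity)
  have h1 := hC N hN1
  have hset : S (t + ε / 2) (1 / t) X = {u : ℕ × ℕ × ℕ | IsABCTriple u.1 u.2.1 u.2.2 ∧
      u.2.2 ≤ N ∧ (rad (u.1 * u.2.1 * u.2.2) : ℝ) ≤ (u.2.2 : ℝ) ^ (1 / t)} := by
    ext u
    constructor
    · rintro ⟨a1, a2, a3⟩
      exact ⟨a1, Nat.le_floor a2, a3⟩
    · rintro ⟨a1, a2, a3⟩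
      refine ⟨a1, le_trans ?_ hNX, a3⟩
      exact_mod_cast a2
  rw [hset]
  refine h1.trans ?_
  have hG0 := Gx_pos _ hl0
  have hG1 := Gx_le _ hl0
  obtain ⟨g, hg⟩ : ∃ g, g = Gx (1 / t) := ⟨_, rfl⟩
  rw [← hg] at hG0 hG1 ⊢
  have he : 0 ≤ g + ε / (2 * (t + ε / 2)) := by positivity
  have h2 : (N : ℝ) ^ (g + ε / (2 * (t + ε / 2))) ≤
      ((X : ℝ) ^ (t + ε / 2)) ^ (g + ε / (2 * (t + ε / 2))) :=
    Real.rpow_le_rpow (Nat.cast_nonneg _) hNX he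
  rw [← Real.rpow_mul hX0.le] at h2
  have h3 : (t + ε / 2) * (g + ε / (2 * (t + ε / 2))) ≤ 5 / 9 + ε := by
    have e1 : (t + ε / 2) * (g + ε / (2 * (t + ε / 2))) = t * g + ε / 2 * g + ε / 2 := by
      field_simp
    rw [e1]
    have e2 : t * g ≤ 5 / 9 := by
      calc t * g ≤ t * (5 * (1 / t) / 9) := mul_le_mul_of_nonneg_left hG1 ht0.le
        _ = 5 / 9 := by field_simp
    have e3 : g ≤ 1 := by linarith
    have e4 : ε / 2 * g ≤ ε / 2 * 1 := mul_le_mul_of_nonneg_left e3 (by positivity)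
    linarith
  have h4 : (X : ℝ) ^ ((t + ε / 2) * (g + ε / (2 * (t + ε / 2)))) ≤
      (X : ℝ) ^ (5 / 9 + ε : ℝ) := Real.rpow_le_rpow_of_exponent_le hX1 h3
  have h5 : 0 ≤ (N : ℝ) ^ (g + ε / (2 * (t + ε / 2))) := by positivity
  calc C * (N : ℝ) ^ (g + ε / (2 * (t + ε / 2)))
      ≤ |C| * (N : ℝ) ^ (g + ε / (2 * (t + ε / 2))) :=
        mul_le_mul_of_nonneg_right (le_abs_self C) h5
    _ ≤ |C| * (X : ℝ) ^ (5 / 9 + ε : ℝ) :=
        mul_le_mul_of_nonneg_left (h2.trans h4) (abs_nonneg C)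

theorem P_card (hcount : ∀ l : ℝ, 0 < l → l ≤ 1 → StmtCount l (Gx l)) (ε : ℝ) (hε : 0 < ε)
    (J : ℕ) : ∃ C : ℝ, 0 ≤ C ∧ ∀ X : ℕ, 1 ≤ X →
    ((P (1 + J * (ε / 2)) X).ncard : ℝ) ≤ C * (X : ℝ) ^ (5 / 9 + ε : ℝ) := by
  induction J with
  | zero =>
    obtain ⟨C, hC0, hC⟩ := S_card hcount ε 1 hε le_rfl
    refine ⟨C, hC0, fun X hX => le_trans ?_ (hC X hX)⟩
    have hX1 : (1 : ℝ) ≤ X := by exact_mod_cast hX
    have hsub : P (1 + (0 : ℕ) * (ε / 2)) X ⊆ S (1 + ε / 2) (1 / 1) X := by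
      rintro t ⟨h1, h2, h3, h4⟩
      refine ⟨h1, h2.trans (Real.rpow_le_rpow_of_exponent_le hX1 ?_), ?_⟩
      · rw [Nat.cast_zero, zero_mul]
        linarith
      · rw [div_one, Real.rpow_one]
        exact_mod_cast h4
    exact_mod_cast Set.ncard_le_ncard hsub (S_fin _ _ _)
  | succ J ih =>
    obtain ⟨C, hC0, hC⟩ := ih
    have ht : (1 : ℝ) ≤ 1 + J * (ε / 2) := by
      have : 0 ≤ (J : ℝ) * (ε / 2) := by positivity
      linarith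
    obtain ⟨C', hC0', hC'⟩ := S_card hcount ε (1 + J * (ε / 2)) hε ht
    refine ⟨C + C', by positivity, fun X hX => ?_⟩
    have hX1 : (1 : ℝ) ≤ X := by exact_mod_cast hX
    have hX0 : (0 : ℝ) < X := by linarith
    set t : ℝ := 1 + J * (ε / 2) with htdef
    have ht0 : 0 < t := by linarith
    have hsub : P (1 + ((J + 1 : ℕ) : ℝ) * (ε / 2)) X ⊆ P t X ∪ S (t + ε / 2) (1 / t) X := by
      rintro u ⟨h1, h2, h3, h4⟩
      rcases le_or_gt ((u.2.2 : ℝ)) ((X : ℝ) ^ t) with h | h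
      · exact Or.inl ⟨h1, h, h3, h4⟩
      · right
        refine ⟨h1, h2.trans (le_of_eq ?_), ?_⟩
        · congr 1
          rw [htdef]
          push_cast
          ring
        · have h5 : ((rad (u.1 * u.2.1 * u.2.2) : ℕ) : ℝ) ≤ X := by exact_mod_cast h3
          refine h5.trans ?_
          have h6 : ((X : ℝ) ^ t) ^ (1 / t) ≤ (u.2.2 : ℝ) ^ (1 / t) :=
            Real.rpow_le_rpow (by positivity) h.le (by positivity)
          rw [← Real.rpow_mul hX0.le, mul_one_div_cancel ht0.ne', Real.rpow_one] at h6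
          exact h6
    have h7 : ((P (1 + ((J + 1 : ℕ) : ℝ) * (ε / 2)) X).ncard : ℝ) ≤
        ((P t X).ncard : ℝ) + ((S (t + ε / 2) (1 / t) X).ncard : ℝ) := by
      have := (Set.ncard_le_ncard hsub ((P_fin _ _).union (S_fin _ _ _))).trans
        (Set.ncard_union_le _ _)
      exact_mod_cast this
    refine h7.trans ?_
    rw [add_mul]
    exact add_le_add (hC X hX) (hC' X hX)

/-- the triples with `rad (abc) ≤ X` and `rad (abc) ≤ c ≤ X ^ k` -/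
theorem rad_count (hcount : ∀ l : ℝ, 0 < l → l ≤ 1 → StmtCount l (Gx l)) (k : ℕ) (ε : ℝ)
    (hε : 0 < ε) : ∃ C : ℝ, ∀ X : ℕ, 1 ≤ X → (P k X).Finite ∧
      ((P k X).ncard : ℝ) ≤ C * (X : ℝ) ^ (5 / 9 + ε : ℝ) := by
  obtain ⟨J, hJ⟩ := exists_nat_ge ((k : ℝ) / (ε / 2))
  obtain ⟨C, hC0, hC⟩ := P_card hcount ε hε J
  refine ⟨C, fun X hX => ⟨P_fin _ _, ?_⟩⟩
  have hX1 : (1 : ℝ) ≤ X := by exact_mod_cast hX
  have hsub : P k X ⊆ P (1 + J * (ε / 2)) X := by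
    rintro t ⟨h1, h2, h3⟩
    refine ⟨h1, h2.trans (Real.rpow_le_rpow_of_exponent_le hX1 ?_), h3⟩
    rw [div_le_iff₀ (by positivity)] at hJ
    linarith
  have h4 : ((P k X).ncard : ℝ) ≤ ((P (1 + J * (ε / 2)) X).ncard : ℝ) := by
    exact_mod_cast Set.ncard_le_ncard hsub (P_fin _ _)
  exact h4.trans (hC X hX)

end Pool.Agent.U663.DP
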