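import Mathlib
import Pool.Agent.H705R2.ABC.Dc

/-!
# The number of solutions of `A x ^ k = A' x' ^ k + m` in a cell
-/

set_option autoImplicit false

namespace Pool.Agent.U663.DP

open Finset Pool.Agent.H785R2.ABC Pool.Agent.H705R2.ABC

theorem gcd_pow_dvd {ι : Type*} [DecidableEq ι] (S : Finset ι) (f : ι → ℕ) (g A k : ℕ) (hk : 1 ≤ k)
    (h : ∀ t ∈ S, g ∣ A * f t ^ k) : g ∣ A * (S.gcd f) ^ k := by
  induction S using Finset.induction_on with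
  | empty =>
    rw [Finset.gcd_empty, zero_pow (by omega), mul_zero]
    exact dvd_zero _
  | insert a s ha ih =>
    rw [Finset.gcd_insert]
    have h1 := ih fun t ht => h t (mem_insert_of_mem ht)
    have h2 := h a (mem_insert_self _ _)
    have e : A * (GCDMonoid.gcd (f a) (s.gcd f)) ^ k =
        Nat.gcd (A * f a ^ k) (A * (s.gcd f) ^ k) := by
      rw [Nat.gcd_mul_left]
      congr 1
      exact Nat.pow_gcd_pow.symm
    rw [e]
    exact Nat.dvd_gcd h2 h1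

/-- the solutions with a given greatest common divisor `g` -/
theorem fib_g (hD : StmtD) (M : ℕ) (ε : ℝ) (hε : 0 < ε) (κ : ℝ) (hκ : 1 ≤ κ) :
    ∃ D : ℝ, 0 < D ∧ ∀ k : ℕ, 2 ≤ k → k ≤ M → ∀ X A A' m g : ℕ, 1 ≤ X → 1 ≤ A → 1 ≤ A' → 1 ≤ m →
      m ≤ X → ∀ Q : Finset (ℕ × ℕ),
      (∀ t ∈ Q, 1 ≤ t.1 ∧ 1 ≤ t.2 ∧ A * t.1 ^ k = A' * t.2 ^ k + m ∧
        Nat.gcd (A * t.1 ^ k) (A' * t.2 ^ k) = g) →
      (∀ t ∈ Q, ∀ u ∈ Q, (t.2 : ℝ) ≤ κ * u.2 ∧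
        (A : ℝ) * (t.1 : ℝ) ^ k ≤ κ * (A' * (u.2 : ℝ) ^ k)) →
      (Q.card : ℝ) ≤ D * (X : ℝ) ^ ε := by
  obtain ⟨D, hD0, hDD⟩ := hD M ε hε
  refine ⟨D * (1 + κ ^ 3), by positivity, ?_⟩
  intro k hk hkM X A A' m g hX hA hA' hm hmX Q hQ hcomp
  classical
  have hXr : (1 : ℝ) ≤ X := by exact_mod_cast hX
  rcases Q.eq_empty_or_nonempty with h0 | ⟨t0, ht0⟩
  · subst h0
    simp only [card_empty, Nat.cast_zero]
    positivity
  obtain ⟨a1, a2, a3, a4⟩ := hQ t0 ht0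
  -- `g`
  have hg0 : 0 < g := by
    rw [← a4]
    exact Nat.gcd_pos_of_pos_left _ (Nat.mul_pos hA (pow_pos a1 _))
  have hgl : ∀ t ∈ Q, g ∣ A * t.1 ^ k := fun t ht => by
    rw [← (hQ t ht).2.2.2]
    exact Nat.gcd_dvd_left _ _
  have hgr : ∀ t ∈ Q, g ∣ A' * t.2 ^ k := fun t ht => by
    rw [← (hQ t ht).2.2.2]
    exact Nat.gcd_dvd_right _ _
  obtain ⟨h, hh⟩ : ∃ h, h = Q.gcd Prod.fst := ⟨_, rfl⟩
  obtain ⟨h', hh'⟩ : ∃ h, h = Q.gcd Prod.snd := ⟨_, rfl⟩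
  have hd : ∀ t ∈ Q, h ∣ t.1 := fun t ht => by rw [hh]; exact Finset.gcd_dvd ht
  have hd' : ∀ t ∈ Q, h' ∣ t.2 := fun t ht => by rw [hh']; exact Finset.gcd_dvd ht
  have hpos : 0 < h := Nat.pos_of_ne_zero fun e => by
    have := hd t0 ht0
    rw [e, zero_dvd_iff] at this
    omega
  have hpos' : 0 < h' := Nat.pos_of_ne_zero fun e => by
    have := hd' t0 ht0
    rw [e, zero_dvd_iff] at this
    omega
  obtain ⟨B, hB⟩ : g ∣ A * h ^ k := by rw [hh]; exact gcd_pow_dvd Q _ g A k (by omega) hgl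
  obtain ⟨B', hB'⟩ : g ∣ A' * h' ^ k := by rw [hh']; exact gcd_pow_dvd Q _ g A' k (by omega) hgr
  have hB0 : 0 < B := Nat.pos_of_ne_zero fun e => by
    rw [e, mul_zero] at hB
    have : 0 < A * h ^ k := Nat.mul_pos hA (pow_pos hpos _)
    omega
  have hB0' : 0 < B' := Nat.pos_of_ne_zero fun e => by
    rw [e, mul_zero] at hB'
    have : 0 < A' * h' ^ k := Nat.mul_pos hA' (pow_pos hpos' _)
    omega
  obtain ⟨f, hf⟩ : g ∣ m := by
    have e1 := hgl t0 ht0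
    rw [a3] at e1
    exact (Nat.dvd_add_right (hgr t0 ht0)).1 e1
  have hf0 : 0 < f := Nat.pos_of_ne_zero fun e => by rw [e, mul_zero] at hf; omega
  have hfX : f ≤ X := (Nat.le_mul_of_pos_left f hg0).trans (hf ▸ hmX)
  -- the new variables
  let y : ℕ × ℕ → ℕ := fun t => t.1 / h
  let y' : ℕ × ℕ → ℕ := fun t => t.2 / h'
  have hy : ∀ t ∈ Q, h * y t = t.1 := fun t ht => Nat.mul_div_cancel' (hd t ht)
  have hy' : ∀ t ∈ Q, h' * y' t = t.2 := fun t ht => Nat.mul_div_cancel' (hd' t ht)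
  have hyp : ∀ t ∈ Q, 0 < y t := fun t ht => Nat.pos_of_ne_zero fun e => by
    have := hy t ht
    rw [e, mul_zero] at this
    have := (hQ t ht).1
    omega
  have hyp' : ∀ t ∈ Q, 0 < y' t := fun t ht => Nat.pos_of_ne_zero fun e => by
    have := hy' t ht
    rw [e, mul_zero] at this
    have := (hQ t ht).2.1
    omega
  have e1 : ∀ t ∈ Q, A * t.1 ^ k = g * (B * y t ^ k) := fun t ht => by
    rw [← hy t ht, mul_pow, ← mul_assoc, hB, mul_assoc]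
  have e2 : ∀ t ∈ Q, A' * t.2 ^ k = g * (B' * y' t ^ k) := fun t ht => by
    rw [← hy' t ht, mul_pow, ← mul_assoc, hB', mul_assoc]
  have e3 : ∀ t ∈ Q, B * y t ^ k = B' * y' t ^ k + f := fun t ht => by
    have h1 := (hQ t ht).2.2.1
    rw [e1 t ht, e2 t ht, hf, ← mul_add] at h1
    exact Nat.eq_of_mul_eq_mul_left hg0 h1
  have e4 : ∀ t ∈ Q, Nat.Coprime (B * y t ^ k) (B' * y' t ^ k) := fun t ht => by
    have h1 := (hQ t ht).2.2.2
    rw [e1 t ht, e2 t ht, Nat.gcd_mul_left] at h1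
    exact Nat.eq_of_mul_eq_mul_left hg0 (by rw [h1, mul_one])
  have e5 : ∀ t ∈ Q, Nat.Coprime (B * y t ^ k) f := fun t ht => by
    have h1 := e4 t ht
    rw [e3 t ht] at h1 ⊢
    rw [Nat.coprime_comm, Nat.Coprime, Nat.gcd_self_add_right] at h1
    rw [Nat.coprime_add_self_left]
    exact h1
  have e6 : ∀ t ∈ Q, Nat.Coprime (B' * y' t ^ k) f := fun t ht => by
    have h1 := e4 t ht
    rw [e3 t ht] at h1
    rw [Nat.coprime_comm, Nat.Coprime, Nat.gcd_self_add_right] at h1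
    exact h1
  have cB : Nat.Coprime B f := Nat.Coprime.coprime_mul_right (e5 t0 ht0)
  have cB' : Nat.Coprime B' f := Nat.Coprime.coprime_mul_right (e6 t0 ht0)
  -- the residue class
  let uB := ZMod.unitOfCoprime B cB
  let uB' := ZMod.unitOfCoprime B' cB'
  let c : ZMod f := ((uB⁻¹ * uB' : (ZMod f)ˣ) : ZMod f)
  have hc : IsUnit c := Units.isUnit _
  have e7 : ∀ t ∈ Q, (y t : ZMod f) ^ k = c * (y' t : ZMod f) ^ k := fun t ht => by
    have h1 : ((B * y t ^ k : ℕ) : ZMod f) = ((B' * y' t ^ k + f : ℕ) : ZMod f) := by rw [e3 t ht]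
    push_cast at h1
    rw [ZMod.natCast_self, add_zero] at h1
    have h2 : (uB : ZMod f) = B := ZMod.coe_unitOfCoprime B cB
    have h3 : (uB' : ZMod f) = B' := ZMod.coe_unitOfCoprime B' cB'
    rw [← h2, ← h3] at h1
    show (y t : ZMod f) ^ k = ((uB⁻¹ * uB' : (ZMod f)ˣ) : ZMod f) * (y' t : ZMod f) ^ k
    rw [Units.val_mul, mul_assoc, ← h1, ← mul_assoc, Units.inv_mul, one_mul]
  -- the real condition
  have hBr : (0 : ℝ) < B := by exact_mod_cast hB0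
  have hBr' : (0 : ℝ) < B' := by exact_mod_cast hB0'
  have hfr : (0 : ℝ) < f := by exact_mod_cast hf0
  have hgr0 : (0 : ℝ) < g := by exact_mod_cast hg0
  have hAr : (0 : ℝ) < A := by exact_mod_cast hA
  have hx0 : (0 : ℝ) < (t0.1 : ℝ) := by exact_mod_cast a1
  obtain ⟨ξ, hξ⟩ : ∃ ξ : ℝ, ξ = ((B' : ℝ) / B) ^ ((1 : ℝ) / k) := ⟨_, rfl⟩
  have hk0 : (k : ℝ) ≠ 0 := by
    have : k ≠ 0 := by omega
    exact_mod_cast this
  have hξ0 : 0 < ξ := by rw [hξ]; positivity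
  have hξk : ξ ^ k = B' / B := by
    rw [hξ, ← Real.rpow_natCast, ← Real.rpow_mul (by positivity), one_div,
      inv_mul_cancel₀ hk0, Real.rpow_one]
  obtain ⟨Z, hZ⟩ : ∃ Z : ℝ, Z = (A : ℝ) * (t0.1 : ℝ) ^ k := ⟨_, rfl⟩
  have hZ0 : 0 < Z := by rw [hZ]; positivity
  obtain ⟨δ, hδ⟩ : ∃ δ : ℝ, δ = κ * m / Z := ⟨_, rfl⟩
  have hδ0 : 0 ≤ δ := by rw [hδ]; positivity
  obtain ⟨Y, hY⟩ : ∃ Y : ℝ, Y = κ * y' t0 := ⟨_, rfl⟩
  have hY0 : 0 ≤ Y := by rw [hY]; positivity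
  have e3r : ∀ t ∈ Q, (B : ℝ) * (y t : ℝ) ^ k = B' * (y' t : ℝ) ^ k + f := fun t ht => by
    exact_mod_cast e3 t ht
  have key : ∀ t ∈ Q, ξ * (y' t : ℝ) ≤ y t ∧ (y t : ℝ) ≤ ξ * (1 + δ) * y' t := by
    intro t ht
    have hyr : (0 : ℝ) < y t := by exact_mod_cast hyp t ht
    have hyr' : (0 : ℝ) < y' t := by exact_mod_cast hyp' t ht
    have h1 := e3r t ht
    have h2 : B' / B * (y' t : ℝ) ^ k = (y t : ℝ) ^ k - f / B := by
      field_simp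
      linarith
    constructor
    · refine le_of_pow_le_pow_left₀ (n := k) (by omega) hyr.le ?_
      rw [mul_pow, hξk, h2]
      have : 0 ≤ (f : ℝ) / B := by positivity
      linarith
    · refine le_of_pow_le_pow_left₀ (n := k) (by omega) (by positivity) ?_
      rw [mul_pow, mul_pow, hξk]
      have h3 : (1 + δ) ≤ (1 + δ) ^ k := le_self_pow₀ (by linarith) (by omega)
      have h4 : (f : ℝ) ≤ δ * (B' * (y' t : ℝ) ^ k) := by
        have h5 := (hcomp t0 ht0 t ht).2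
        rw [← hZ] at h5
        have h6 : (A' : ℝ) * (t.2 : ℝ) ^ k = g * (B' * (y' t : ℝ) ^ k) := by
          exact_mod_cast e2 t ht
        rw [h6] at h5
        have h7 : (m : ℝ) = g * f := by exact_mod_cast hf
        rw [hδ, h7, div_mul_eq_mul_div, le_div_iff₀ hZ0]
        have h8 : (f : ℝ) * Z ≤ f * (κ * (g * (B' * (y' t : ℝ) ^ k))) :=
          mul_le_mul_of_nonneg_left h5 hfr.le
        linarith
      have h9 : (B : ℝ) * (y t : ℝ) ^ k ≤ (1 + δ) * (B' * (y' t : ℝ) ^ k) := by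
        rw [h1]
        linarith
      have h10 : (y t : ℝ) ^ k ≤ (1 + δ) * (B' / B * (y' t : ℝ) ^ k) := by
        have : (y t : ℝ) ^ k = (B * (y t : ℝ) ^ k) / B := by field_simp
        rw [this, div_le_iff₀ hBr]
        refine h9.trans (le_of_eq ?_)
        field_simp
      refine h10.trans ?_
      have h11 : (0 : ℝ) ≤ B' / B * (y' t : ℝ) ^ k := by positivity
      nlinarith [mul_le_mul_of_nonneg_right h3 h11]
  -- apply the count
  let e : ℕ × ℕ → ℕ × ℕ := fun t => (y t, y' t)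
  have hinj : Set.InjOn e (Q : Set (ℕ × ℕ)) := by
    intro t ht u hu htu
    simp only [e, Prod.mk.injEq] at htu
    have ht' := Finset.mem_coe.1 ht
    have hu' := Finset.mem_coe.1 hu
    refine Prod.ext ?_ ?_
    · rw [← hy t ht', ← hy u hu', htu.1]
    · rw [← hy' t ht', ← hy' u hu', htu.2]
  have h1 := hDD k (by omega) hkM f hf0 c hc Y ξ δ hY0 hξ0 hδ0 (Q.image e) (by
    intro z hz
    obtain ⟨t, ht, rfl⟩ := mem_image.1 hz
    simp only [e]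
    refine ⟨hyp t ht, hyp' t ht, ?_, ?_, ?_, e7 t ht, ?_, (key t ht).1, (key t ht).2⟩
    · have h1 := Nat.Coprime.coprime_mul_left (Nat.Coprime.coprime_mul_left_right (e4 t ht))
      exact (Nat.coprime_pow_left_iff (by omega) _ _).1
        ((Nat.coprime_pow_right_iff (by omega) _ _).1 h1)
    · exact (Nat.coprime_pow_left_iff (by omega) _ _).1 (Nat.Coprime.coprime_mul_left (e5 t ht))
    · exact (Nat.coprime_pow_left_iff (by omega) _ _).1 (Nat.Coprime.coprime_mul_left (e6 t ht))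
    · have h2 := (hcomp t ht t0 ht0).1
      rw [← hy' t ht, ← hy' t0 ht0] at h2
      push_cast at h2
      have hpr : (0 : ℝ) < h' := by exact_mod_cast hpos'
      rw [hY]
      have h3 : (h' : ℝ) * (y' t : ℝ) ≤ h' * (κ * y' t0) := by linarith
      exact le_of_mul_le_mul_left h3 hpr)
  rw [card_image_of_injOn hinj] at h1
  refine h1.trans ?_
  have hT : ξ * δ * Y ^ 2 / f ≤ κ ^ 3 := by
    have k1 := (key t0 ht0).1
    have hyr : (0 : ℝ) < y t0 := by exact_mod_cast hyp t0 ht0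
    have hyr' : (0 : ℝ) < y' t0 := by exact_mod_cast hyp' t0 ht0
    have h7 : (m : ℝ) = g * f := by exact_mod_cast hf
    have s1 : (g : ℝ) * (y t0 : ℝ) ^ 2 ≤ Z := by
      have q1 : Z = g * (B * (y t0 : ℝ) ^ k) := by
        rw [hZ]
        exact_mod_cast e1 t0 ht0
      rw [q1]
      refine mul_le_mul_of_nonneg_left ?_ hgr0.le
      have q2 : (y t0 : ℝ) ^ 2 ≤ (y t0 : ℝ) ^ k :=
        pow_le_pow_right₀ (by exact_mod_cast hyp t0 ht0) hk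
      have q3 : (1 : ℝ) ≤ B := by exact_mod_cast hB0
      have q4 : 0 ≤ (y t0 : ℝ) ^ k := by positivity
      nlinarith
    have s2 : (g : ℝ) * (y' t0 : ℝ) ^ 2 ≤ Z := by
      have q1 : (A' : ℝ) * (t0.2 : ℝ) ^ k = g * (B' * (y' t0 : ℝ) ^ k) := by
        exact_mod_cast e2 t0 ht0
      have q0 : (A' : ℝ) * (t0.2 : ℝ) ^ k ≤ Z := by
        have : (A : ℝ) * (t0.1 : ℝ) ^ k = A' * (t0.2 : ℝ) ^ k + m := by exact_mod_cast a3
        rw [hZ, this]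
        have : (0 : ℝ) ≤ m := by positivity
        linarith
      refine le_trans ?_ q0
      rw [q1]
      refine mul_le_mul_of_nonneg_left ?_ hgr0.le
      have q2 : (y' t0 : ℝ) ^ 2 ≤ (y' t0 : ℝ) ^ k :=
        pow_le_pow_right₀ (by exact_mod_cast hyp' t0 ht0) hk
      have q3 : (1 : ℝ) ≤ B' := by exact_mod_cast hB0'
      have q4 : 0 ≤ (y' t0 : ℝ) ^ k := by positivity
      nlinarith
    have s3 : (g : ℝ) * (ξ * (y' t0 : ℝ) ^ 2) ≤ Z := by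
      have q1 : ξ * (y' t0 : ℝ) ^ 2 ≤ y t0 * y' t0 := by nlinarith
      have q2 : (y t0 : ℝ) * y' t0 ≤ ((y t0 : ℝ) ^ 2 + (y' t0 : ℝ) ^ 2) / 2 := by
        nlinarith [sq_nonneg ((y t0 : ℝ) - y' t0)]
      have q3 := mul_le_mul_of_nonneg_left (q1.trans q2) hgr0.le
      linarith
    have s4 : ξ * δ * Y ^ 2 / f = κ ^ 3 * (g * (ξ * (y' t0 : ℝ) ^ 2) / Z) := by
      rw [hδ, hY, h7]
      field_simp
    rw [s4]
    have s5 : g * (ξ * (y' t0 : ℝ) ^ 2) / Z ≤ 1 := (div_le_one hZ0).2 s3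
    have s6 : 0 ≤ κ ^ 3 := by positivity
    nlinarith
  have hF : (f : ℝ) ^ ε ≤ (X : ℝ) ^ ε :=
    Real.rpow_le_rpow hfr.le (by exact_mod_cast hfX) hε.le
  calc D * (f : ℝ) ^ ε * (1 + ξ * δ * Y ^ 2 / f) ≤ D * (X : ℝ) ^ ε * (1 + κ ^ 3) := by
        refine mul_le_mul (mul_le_mul_of_nonneg_left hF hD0.le) (by linarith) ?_ (by positivity)
        positivity
    _ = D * (1 + κ ^ 3) * (X : ℝ) ^ ε := by ring

/-- the solutions of `A x ^ k = A' x' ^ k + m`, `m > 0`, all sizes comparable -/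
theorem fib_pos (hD : StmtD) (hT : StmtTau) (M : ℕ) (ε : ℝ) (hε : 0 < ε) (κ : ℝ) (hκ : 1 ≤ κ) :
    ∃ D : ℝ, 0 < D ∧ ∀ k : ℕ, 2 ≤ k → k ≤ M → ∀ X A A' m : ℕ, 1 ≤ X → 1 ≤ A → 1 ≤ A' → 1 ≤ m →
      m ≤ X → ∀ Q : Finset (ℕ × ℕ),
      (∀ t ∈ Q, 1 ≤ t.1 ∧ 1 ≤ t.2 ∧ A * t.1 ^ k = A' * t.2 ^ k + m) →
      (∀ t ∈ Q, ∀ u ∈ Q, (t.2 : ℝ) ≤ κ * u.2 ∧
        (A : ℝ) * (t.1 : ℝ) ^ k ≤ κ * (A' * (u.2 : ℝ) ^ k)) →
      (Q.card : ℝ) ≤ D * (X : ℝ) ^ ε := by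
  obtain ⟨D1, hD1, h1⟩ := fib_g hD M (ε / 2) (by positivity) κ hκ
  obtain ⟨D2, hD2, h2⟩ := hT (ε / 2) (by positivity)
  refine ⟨D2 * D1, by positivity, ?_⟩
  intro k hk hkM X A A' m hX hA hA' hm hmX Q hQ hcomp
  classical
  have hXr : (1 : ℝ) ≤ X := by exact_mod_cast hX
  let G : ℕ × ℕ → ℕ := fun t => Nat.gcd (A * t.1 ^ k) (A' * t.2 ^ k)
  have hmap : ∀ t ∈ Q, G t ∈ m.divisors := by
    intro t ht
    rw [Nat.mem_divisors]
    refine ⟨?_, by omega⟩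
    have e1 : G t ∣ A * t.1 ^ k := Nat.gcd_dvd_left _ _
    rw [(hQ t ht).2.2] at e1
    exact (Nat.dvd_add_right (Nat.gcd_dvd_right _ _)).1 e1
  have h3 : Q.card = ∑ g ∈ m.divisors, (Q.filter fun t => G t = g).card :=
    card_eq_sum_card_fiberwise hmap
  have h4 : ∀ g ∈ m.divisors, ((Q.filter fun t => G t = g).card : ℝ) ≤ D1 * (X : ℝ) ^ (ε / 2) := by
    intro g hg
    refine h1 k hk hkM X A A' m g hX hA hA' hm hmX _ ?_ ?_
    · intro t ht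
      rw [mem_filter] at ht
      obtain ⟨a1, a2, a3⟩ := hQ t ht.1
      exact ⟨a1, a2, a3, ht.2⟩
    · intro t ht u hu
      rw [mem_filter] at ht hu
      exact hcomp t ht.1 u hu.1
  have h5 : (m.divisors.card : ℝ) ≤ D2 * (X : ℝ) ^ (ε / 2) := by
    refine (h2 m hm).trans (mul_le_mul_of_nonneg_left ?_ hD2.le)
    exact Real.rpow_le_rpow (Nat.cast_nonneg _) (by exact_mod_cast hmX) (by positivity)
  have hx : 0 ≤ D1 * (X : ℝ) ^ (ε / 2) := by positivity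
  calc (Q.card : ℝ) = ∑ g ∈ m.divisors, ((Q.filter fun t => G t = g).card : ℝ) := by
        rw [h3]; push_cast; rfl
    _ ≤ ∑ g ∈ m.divisors, D1 * (X : ℝ) ^ (ε / 2) := sum_le_sum h4
    _ = (m.divisors.card : ℝ) * (D1 * (X : ℝ) ^ (ε / 2)) := by rw [sum_const, nsmul_eq_mul]
    _ ≤ (D2 * (X : ℝ) ^ (ε / 2)) * (D1 * (X : ℝ) ^ (ε / 2)) := mul_le_mul_of_nonneg_right h5 hx
    _ = D2 * D1 * (X : ℝ) ^ ε := by
        have : (X : ℝ) ^ ε = (X : ℝ) ^ (ε / 2) * (X : ℝ) ^ (ε / 2) := by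
          rw [← Real.rpow_add (by linarith)]; congr 1; ring
        rw [this]; ring

/-- the solutions of `A x ^ k - A' x' ^ k = m`, `m ≠ 0`, all sizes comparable -/
theorem fib (hD : StmtD) (hT : StmtTau) (M : ℕ) (ε : ℝ) (hε : 0 < ε) (κ : ℝ) (hκ : 1 ≤ κ) :
    ∃ D : ℝ, 0 < D ∧ ∀ k : ℕ, 2 ≤ k → k ≤ M → ∀ X A A' : ℕ, ∀ m : ℤ, 1 ≤ X → 1 ≤ A → 1 ≤ A' →
      m ≠ 0 → m.natAbs ≤ X → ∀ Q : Finset (ℕ × ℕ),
      (∀ t ∈ Q, 1 ≤ t.1 ∧ 1 ≤ t.2 ∧ (A : ℤ) * (t.1 : ℤ) ^ k - A' * (t.2 : ℤ) ^ k = m) →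
      (∀ t ∈ Q, ∀ u ∈ Q, (t.1 : ℝ) ≤ κ * u.1 ∧ (t.2 : ℝ) ≤ κ * u.2 ∧
        (A : ℝ) * (t.1 : ℝ) ^ k ≤ κ * (A' * (u.2 : ℝ) ^ k) ∧
        (A' : ℝ) * (t.2 : ℝ) ^ k ≤ κ * (A * (u.1 : ℝ) ^ k)) →
      (Q.card : ℝ) ≤ D * (X : ℝ) ^ ε := by
  obtain ⟨D, hD, h⟩ := fib_pos hD hT M ε hε κ hκ
  refine ⟨D, hD, ?_⟩
  intro k hk hkM X A A' m hX hA hA' hm hmX Q hQ hcomp
  classical
  rcases lt_or_gt_of_ne hm with hneg | hpos
  · have h1 := h k hk hkM X A' A m.natAbs hX hA' hA (by omega) hmX (Q.image Prod.swap) (by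
      intro z hz
      obtain ⟨t, ht, rfl⟩ := mem_image.1 hz
      obtain ⟨a1, a2, a3⟩ := hQ t ht
      refine ⟨a2, a1, ?_⟩
      simp only [Prod.fst_swap, Prod.snd_swap]
      zify
      rw [abs_of_neg hneg]
      linarith) (by
      intro z hz w hw
      obtain ⟨t, ht, rfl⟩ := mem_image.1 hz
      obtain ⟨u, hu, rfl⟩ := mem_image.1 hw
      exact ⟨(hcomp t ht u hu).1, (hcomp t ht u hu).2.2.2⟩)
    rwa [card_image_of_injective _ Prod.swap_injective] at h1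
  · refine h k hk hkM X A A' m.natAbs hX hA hA' (by omega) hmX Q (fun t ht => ?_)
      (fun t ht u hu => ⟨(hcomp t ht u hu).2.1, (hcomp t ht u hu).2.2.1⟩)
    obtain ⟨a1, a2, a3⟩ := hQ t ht
    refine ⟨a1, a2, ?_⟩
    zify
    rw [abs_of_pos hpos]
    linarith

end Pool.Agent.U663.DP
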