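import Mathlib
import Pool.Agent.U663.DP.Fib

/-!
# The second difference bound
-/

set_option autoImplicit false

namespace Pool.Agent.U663.DP

open Finset Pool.Agent.H785R2.ABC Pool.Agent.H705R2.ABC Pool.Agent.H705R2.ABC.Dc

/-- DP: pairs with the same member `r`; the class `i` of the member `p` is determined by the rest -/
def StmtDp : Prop :=
  ∀ K : ℕ, ∀ ε : ℝ, 0 < ε → ∃ D : ℝ, 0 < D ∧ ∀ T : Finset (ℕ × ℕ × ℕ), Cell K T → ∀ s ∈ T,
    ∀ p q r : Fin 3, p ≠ q → q ≠ r → p ≠ r → ∀ i : Fin (K + 1), 1 ≤ (i : ℕ) → (i : ℕ) < K →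
    (T.card : ℝ) ≤ D * (s.2.2 : ℝ) ^ ε *
      ((rd K (num s r) univ : ℝ) + (rd K (num s r) univ : ℝ) ^ ((1 : ℝ) / 2) *
        ((rd K (num s p) {i}ᶜ : ℝ) * rd K (num s q) univ))

theorem stmtDp_of (hF : Basics) (hA4 : StmtA4) (hT : StmtTau) (hD : StmtD) : StmtDp := by
  intro K ε hε
  obtain ⟨D4, hD4, hA⟩ := hA4 (ε / 3) (by positivity)
  obtain ⟨Df, hDf, hfib⟩ := fib hD hT (K + 1) (ε / 3) (by positivity) (2 ^ (K + 1))
    (one_le_pow₀ (by norm_num))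
  obtain ⟨E, hE⟩ : ∃ E : ℝ, E = D4 * 2 ^ (K + 1) := ⟨_, rfl⟩
  have hE0 : 0 < E := by rw [hE]; positivity
  refine ⟨(2 * E + (1 + 2 * E ^ 5 * Df)) * ((2 : ℝ) ^ (K + 1)) ^ ε, by positivity, ?_⟩
  intro T hcell s hs p q r hpq hqr hpr i hi1 hiK
  classical
  obtain ⟨c, hc⟩ : ∃ c, c = s.2.2 := ⟨_, rfl⟩
  have hcpos : 1 ≤ c := by rw [hc]; exact (hcell.abc s hs).2.2.1
  obtain ⟨X, hX⟩ : ∃ X, X = 2 ^ (K + 1) * c := ⟨_, rfl⟩
  have hXpos : 1 ≤ X := by rw [hX]; exact Nat.mul_pos (by positivity) hcpos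
  have hnumX : ∀ t ∈ T, ∀ j, num t j ≤ X := fun t ht j => by
    rw [hX, hc]; exact EC.num_le_X hF hcell ht hs j
  have hnum1 : ∀ t ∈ T, ∀ j, 1 ≤ num t j := fun t ht j => EC.num_pos (hcell.abc t ht) j
  obtain ⟨Rp, hRp⟩ : ∃ R : ℝ, R = (rd K (num s p) {i}ᶜ : ℝ) := ⟨_, rfl⟩
  obtain ⟨Rq, hRq⟩ : ∃ R : ℝ, R = (rd K (num s q) univ : ℝ) := ⟨_, rfl⟩
  obtain ⟨Rr, hRr⟩ : ∃ R : ℝ, R = (rd K (num s r) univ : ℝ) := ⟨_, rfl⟩
  have hRp0 : 0 ≤ Rp := by rw [hRp]; positivity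
  have hRq0 : 0 ≤ Rq := by rw [hRq]; positivity
  have hRr0 : 0 ≤ Rr := by rw [hRr]; positivity
  rw [← hRp, ← hRq, ← hRr, ← hc]
  -- the power of X
  obtain ⟨y, hy⟩ : ∃ y : ℝ, y = (X : ℝ) ^ (ε / 3) := ⟨_, rfl⟩
  have hXr : (1 : ℝ) ≤ X := by exact_mod_cast hXpos
  have hy1 : 1 ≤ y := by rw [hy]; exact Real.one_le_rpow hXr (by positivity)
  have hy3 : y ^ 3 = ((2 : ℝ) ^ (K + 1)) ^ ε * (c : ℝ) ^ ε := by
    rw [hy, ← Real.rpow_natCast, ← Real.rpow_mul (by positivity), ← Real.mul_rpow (by positivity)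
      (by positivity), hX]
    push_cast
    congr 1
    ring
  -- the sets of numbers with small radical
  have hU : ∀ R : ℝ, 0 ≤ R → (((Icc 1 X).filter fun d => (rad d : ℝ) ≤ 2 ^ (K + 1) * R).card : ℝ) ≤
      E * y * R := by
    intro R hR
    have h1 := hA X hXpos (2 ^ (K + 1) * R) (by positivity)
    rw [← hy] at h1
    rw [hE]
    linarith
  let U : ℝ → Finset ℕ := fun R => (Icc 1 X).filter fun d => (rad d : ℝ) ≤ 2 ^ (K + 1) * R
  have hU' : ∀ R : ℝ, 0 ≤ R → ((U R).card : ℝ) ≤ E * y * R := hU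
  -- the map G
  let G : ℕ × ℕ × ℕ → ℕ := fun t => num t r
  have himg : ((T.image G).card : ℝ) ≤ E * y * Rr := by
    have h1 : T.image G ⊆ U Rr := by
      intro z hz
      obtain ⟨t, ht, rfl⟩ := mem_image.1 hz
      simp only [G, U, mem_filter, mem_Icc]
      refine ⟨⟨hnum1 t ht r, hnumX t ht r⟩, ?_⟩
      rw [← hF.rd_univ K, hRr]
      exact_mod_cast hcell.rd_le t ht s hs r univ
    exact (by exact_mod_cast card_le_card h1 : ((T.image G).card : ℝ) ≤ ((U Rr).card : ℝ)).trans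
      (hU' Rr hRr0)
  -- the pairs
  obtain ⟨a, b, hab, hlin⟩ := num_lin (p := r) (q := q) (r := p) hqr.symm hpq.symm hpr.symm
  let x : ℕ × ℕ × ℕ → ℕ := fun t => rd K (num t p) {i}
  let A : ℕ × ℕ × ℕ → ℕ := fun t => part K (num t p) {i}ᶜ
  have hnp : ∀ t ∈ T, num t p = A t * x t ^ ((i : ℕ) + 1) := by
    intro t ht
    have h1 := hF.part_mul K (num t p) {i} (hnum1 t ht p)
    rw [hF.part_single K (num t p) i hiK] at h1
    rw [← h1, mul_comm]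
  let P := (T ×ˢ T).filter fun z => z.1 ≠ z.2 ∧ G z.1 = G z.2
  have hP : ∀ z ∈ P, z.1 ∈ T ∧ z.2 ∈ T ∧ z.1 ≠ z.2 ∧ num z.1 r = num z.2 r := by
    intro z hz
    simp only [P, mem_filter, mem_product, G] at hz
    exact ⟨hz.1.1, hz.1.2, hz.2.1, hz.2.2⟩
  have hdiff : ∀ z ∈ P, (A z.1 : ℤ) * (x z.1 : ℤ) ^ ((i : ℕ) + 1) -
      A z.2 * (x z.2 : ℤ) ^ ((i : ℕ) + 1) = b * ((num z.1 q : ℤ) - num z.2 q) := by
    intro z hz
    obtain ⟨h1, h2, h3, h4⟩ := hP z hz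
    have e1 := hlin z.1 (hcell.abc _ h1)
    have e2 := hlin z.2 (hcell.abc _ h2)
    have e3 : (num z.1 p : ℤ) = A z.1 * (x z.1 : ℤ) ^ ((i : ℕ) + 1) := by
      rw [hnp z.1 h1]; push_cast; rfl
    have e4 : (num z.2 p : ℤ) = A z.2 * (x z.2 : ℤ) ^ ((i : ℕ) + 1) := by
      rw [hnp z.2 h2]; push_cast; rfl
    rw [← e3, ← e4, e1, e2, h4]
    ring
  let Φ : (ℕ × ℕ × ℕ) × (ℕ × ℕ × ℕ) → (ℕ × ℕ) × (ℕ × ℕ) := fun z =>
    ((num z.1 q, num z.2 q), (A z.1, A z.2))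
  let V : Finset ((ℕ × ℕ) × (ℕ × ℕ)) := (U Rq ×ˢ U Rq) ×ˢ (U Rp ×ˢ U Rp)
  have hmaps : ∀ z ∈ P, Φ z ∈ V := by
    intro z hz
    obtain ⟨h1, h2, h3, h4⟩ := hP z hz
    have hq : ∀ t ∈ T, num t q ∈ U Rq := by
      intro t ht
      simp only [U, mem_filter, mem_Icc]
      refine ⟨⟨hnum1 t ht q, hnumX t ht q⟩, ?_⟩
      rw [← hF.rd_univ K, hRq]
      exact_mod_cast hcell.rd_le t ht s hs q univ
    have hp : ∀ t ∈ T, A t ∈ U Rp := by
      intro t ht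
      simp only [U, mem_filter, mem_Icc, A]
      refine ⟨⟨hF.part_pos _ _ _, ?_⟩, ?_⟩
      · exact (Nat.le_of_dvd (hnum1 t ht p) (hF.part_dvd _ _ _ (hnum1 t ht p))).trans (hnumX t ht p)
      · rw [hF.rad_part _ _ _ (hnum1 t ht p), hRp]
        exact_mod_cast hcell.rd_le t ht s hs p {i}ᶜ
    simp only [Φ, V, mem_product]
    exact ⟨⟨hq _ h1, hq _ h2⟩, hp _ h1, hp _ h2⟩
  have hfb : ∀ w ∈ V, ((P.filter fun z => Φ z = w).card : ℝ) ≤ Df * y := by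
    intro w hw
    rcases (P.filter fun z => Φ z = w).eq_empty_or_nonempty with h0 | ⟨z0, hz0⟩
    · rw [h0, card_empty, Nat.cast_zero]
      positivity
    let e : (ℕ × ℕ × ℕ) × (ℕ × ℕ × ℕ) → ℕ × ℕ := fun z => (x z.1, x z.2)
    have hmem : ∀ z ∈ P.filter (fun z => Φ z = w), z ∈ P ∧ num z.1 q = w.1.1 ∧
        num z.2 q = w.1.2 ∧ A z.1 = w.2.1 ∧ A z.2 = w.2.2 := by
      intro z hz
      rw [mem_filter] at hz
      obtain ⟨h1, h2⟩ := hz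
      rw [← h2]
      exact ⟨h1, rfl, rfl, rfl, rfl⟩
    have hinj : Set.InjOn e ((P.filter fun z => Φ z = w : Finset _) :
        Set ((ℕ × ℕ × ℕ) × (ℕ × ℕ × ℕ))) := by
      intro z hz u hu hzu
      obtain ⟨z1, z2, z3, z4, z5⟩ := hmem z (Finset.mem_coe.1 hz)
      obtain ⟨u1, u2, u3, u4, u5⟩ := hmem u (Finset.mem_coe.1 hu)
      obtain ⟨h1, h2, -, -⟩ := hP z z1
      obtain ⟨g1, g2, -, -⟩ := hP u u1
      simp only [e, Prod.mk.injEq] at hzu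
      refine Prod.ext ?_ ?_
      · refine EC.num_inj (hcell.abc _ h1) (hcell.abc _ g1) hpq ?_ (by rw [z2, u2])
        rw [hnp z.1 h1, hnp u.1 g1, z4, u4, hzu.1]
      · refine EC.num_inj (hcell.abc _ h2) (hcell.abc _ g2) hpq ?_ (by rw [z3, u3])
        rw [hnp z.2 h2, hnp u.2 g2, z5, u5, hzu.2]
    obtain ⟨y1, y2, y3, y4, y5⟩ := hmem z0 hz0
    obtain ⟨k1, k2, k3, k4⟩ := hP z0 y1
    have hm0 : b * ((w.1.1 : ℤ) - w.1.2) ≠ 0 := by
      intro h0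
      rw [← y2, ← y3, ← hdiff z0 y1] at h0
      have e3 : (num z0.1 p : ℤ) = A z0.1 * (x z0.1 : ℤ) ^ ((i : ℕ) + 1) := by
        rw [hnp z0.1 k1]; push_cast; rfl
      have e4 : (num z0.2 p : ℤ) = A z0.2 * (x z0.2 : ℤ) ^ ((i : ℕ) + 1) := by
        rw [hnp z0.2 k2]; push_cast; rfl
      rw [← e3, ← e4] at h0
      have e5 : num z0.1 p = num z0.2 p := by omega
      exact k3 (EC.num_inj (hcell.abc _ k1) (hcell.abc _ k2) hpr e5 k4)
    have hmX : (b * ((w.1.1 : ℤ) - w.1.2)).natAbs ≤ X := by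
      rw [← y2, ← y3, ← hdiff z0 y1]
      have e3 : (num z0.1 p : ℤ) = A z0.1 * (x z0.1 : ℤ) ^ ((i : ℕ) + 1) := by
        rw [hnp z0.1 k1]; push_cast; rfl
      have e4 : (num z0.2 p : ℤ) = A z0.2 * (x z0.2 : ℤ) ^ ((i : ℕ) + 1) := by
        rw [hnp z0.2 k2]; push_cast; rfl
      rw [← e3, ← e4]
      have e5 := hnumX z0.1 k1 p
      have e6 := hnumX z0.2 k2 p
      omega
    have h1 := hfib ((i : ℕ) + 1) (by omega) (by omega) X w.2.1 w.2.2 (b * ((w.1.1 : ℤ) - w.1.2))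
      hXpos (by rw [← y4]; exact hF.part_pos _ _ _) (by rw [← y5]; exact hF.part_pos _ _ _)
      hm0 hmX ((P.filter fun z => Φ z = w).image e) (by
        intro v hv
        obtain ⟨z, hz, rfl⟩ := mem_image.1 hv
        obtain ⟨z1, z2, z3, z4, z5⟩ := hmem z hz
        refine ⟨hF.rd_pos _ _ _, hF.rd_pos _ _ _, ?_⟩
        have := hdiff z z1
        rw [z2, z3, z4, z5] at this
        exact this) (by
        intro v hv v' hv'
        obtain ⟨z, hz, rfl⟩ := mem_image.1 hv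
        obtain ⟨u, hu, rfl⟩ := mem_image.1 hv'
        obtain ⟨z1, z2, z3, z4, z5⟩ := hmem z hz
        obtain ⟨u1, u2, u3, u4, u5⟩ := hmem u hu
        obtain ⟨h1, h2, -, -⟩ := hP z z1
        obtain ⟨g1, g2, -, -⟩ := hP u u1
        simp only [e]
        refine ⟨by exact_mod_cast hcell.rd_le _ h1 _ g1 p {i},
          by exact_mod_cast hcell.rd_le _ h2 _ g2 p {i}, ?_, ?_⟩
        · have e1 := hcell.part_le _ h1 _ g2 p univ
          rw [hF.part_univ K _ (hnum1 _ h1 p), hF.part_univ K _ (hnum1 _ g2 p), hnp _ h1, hnp _ g2,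
            z4, u5] at e1
          exact_mod_cast e1
        · have e1 := hcell.part_le _ h2 _ g1 p univ
          rw [hF.part_univ K _ (hnum1 _ h2 p), hF.part_univ K _ (hnum1 _ g1 p), hnp _ h2, hnp _ g1,
            z5, u4] at e1
          exact_mod_cast e1)
    rw [card_image_of_injOn hinj, ← hy] at h1
    exact h1
  have hPcard : (P.card : ℝ) ≤ (E * y * Rq) ^ 2 * (E * y * Rp) ^ 2 * (Df * y) := by
    have h1 : P.card = ∑ w ∈ V, (P.filter fun z => Φ z = w).card :=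
      card_eq_sum_card_fiberwise hmaps
    have h2 : (V.card : ℝ) ≤ (E * y * Rq) ^ 2 * (E * y * Rp) ^ 2 := by
      have hV : V.card = ((U Rq).card * (U Rq).card) * ((U Rp).card * (U Rp).card) := by
        show ((U Rq ×ˢ U Rq) ×ˢ (U Rp ×ˢ U Rp)).card = _
        rw [card_product, card_product, card_product]
      rw [hV, Nat.cast_mul, Nat.cast_mul, Nat.cast_mul]
      have q1 := hU' Rq hRq0
      have q2 := hU' Rp hRp0
      rw [sq, sq]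
      exact mul_le_mul (mul_le_mul q1 q1 (Nat.cast_nonneg _) (by positivity))
        (mul_le_mul q2 q2 (Nat.cast_nonneg _) (by positivity))
        (mul_nonneg (Nat.cast_nonneg _) (Nat.cast_nonneg _)) (by positivity)
    calc (P.card : ℝ) = ∑ w ∈ V, ((P.filter fun z => Φ z = w).card : ℝ) := by
          rw [h1, Nat.cast_sum]
      _ ≤ ∑ w ∈ V, Df * y := sum_le_sum hfb
      _ = (V.card : ℝ) * (Df * y) := by rw [sum_const, nsmul_eq_mul]
      _ ≤ _ := mul_le_mul_of_nonneg_right h2 (by positivity)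
  -- Cauchy-Schwarz
  have hcs : (T.card : ℝ) ^ 2 ≤ ((T.image G).card : ℝ) * (T.card + P.card) := by
    exact_mod_cast cs_count T G
  have hy0 : 0 ≤ y := by linarith
  obtain ⟨ρ, hρ⟩ : ∃ ρ : ℝ, ρ = Rr ^ ((1 : ℝ) / 2) := ⟨_, rfl⟩
  have hρ0 : 0 ≤ ρ := by rw [hρ]; positivity
  have hρ2 : ρ ^ 2 = Rr := by
    rw [hρ, ← Real.rpow_natCast, ← Real.rpow_mul (by positivity)]
    norm_num
  rw [← hρ]
  have hfin : (T.card : ℝ) ≤ 2 * (E * y * Rr) +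
      (1 + 2 * E ^ 5 * Df) * (y ^ 3 * ρ * (Rp * Rq)) := by
    refine combine (M := (E * y * Rq) ^ 2 * (E * y * Rp) ^ 2 * (Df * y)) (Nat.cast_nonneg _)
      (by positivity) (by positivity) ?_ ?_
    · refine hcs.trans ?_
      exact mul_le_mul himg (by linarith) (add_nonneg (Nat.cast_nonneg _) (Nat.cast_nonneg _))
        (by positivity)
    · have e1 : 2 * (E * y * Rr * ((E * y * Rq) ^ 2 * (E * y * Rp) ^ 2 * (Df * y))) =
          (2 * E ^ 5 * Df) * (y ^ 3 * ρ * (Rp * Rq)) ^ 2 := by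
        rw [← hρ2]
        ring
      have e2 : ((1 + 2 * E ^ 5 * Df) * (y ^ 3 * ρ * (Rp * Rq))) ^ 2 =
          (1 + 2 * E ^ 5 * Df) ^ 2 * (y ^ 3 * ρ * (Rp * Rq)) ^ 2 := by ring
      rw [e1, e2]
      have e3 : 0 ≤ 2 * E ^ 5 * Df := by positivity
      have e4 : 2 * E ^ 5 * Df ≤ (1 + 2 * E ^ 5 * Df) ^ 2 := by nlinarith
      exact mul_le_mul_of_nonneg_right e4 (sq_nonneg _)
  have hy13 : y ≤ y ^ 3 := le_self_pow₀ hy1 (by norm_num)
  calc (T.card : ℝ) ≤ 2 * (E * y * Rr) + (1 + 2 * E ^ 5 * Df) * (y ^ 3 * ρ * (Rp * Rq)) := hfin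
    _ = 2 * E * Rr * y + (1 + 2 * E ^ 5 * Df) * (ρ * (Rp * Rq)) * y ^ 3 := by ring
    _ ≤ 2 * E * Rr * y ^ 3 + (1 + 2 * E ^ 5 * Df) * (ρ * (Rp * Rq)) * y ^ 3 := by
        have : 2 * E * Rr * y ≤ 2 * E * Rr * y ^ 3 :=
          mul_le_mul_of_nonneg_left hy13 (by positivity)
        linarith
    _ ≤ (2 * E + (1 + 2 * E ^ 5 * Df)) * y ^ 3 * (Rr + ρ * (Rp * Rq)) := by
        have h1 : 0 ≤ (1 + 2 * E ^ 5 * Df) * y ^ 3 * Rr := by positivity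
        have h2 : 0 ≤ 2 * E * y ^ 3 * (ρ * (Rp * Rq)) := by positivity
        nlinarith
    _ = _ := by rw [hy3]; ring

end Pool.Agent.U663.DP
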