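import Mathlib
import Pool.Agent.H705R2.ABC.Num

/-!
# Numerical part: the exponent `5 lam / 9` for `lam ≤ 3 / 5`
-/

set_option autoImplicit false

namespace Pool.Agent.U663.DP

open Finset Pool.Agent.H785R2.ABC Pool.Agent.H705R2.ABC Pool.Agent.H705R2.ABC.NumM

/-- one of the four bounds is always good -/
def StmtNum5 : Prop :=
  ∀ lam : ℝ, 0 < lam → lam ≤ 3 / 5 → ∃ K₀ : ℕ, ∃ C : ℝ, 0 ≤ C ∧ ∀ K : ℕ, K₀ ≤ K →
    ∀ (δ : ℝ) (v w : Fin 3 → Fin (K + 1) → ℝ), 0 ≤ δ → Poly K lam δ v w →
    (∃ p q : Fin 3, p ≠ q ∧ cost v p univ + cost v q univ ≤ 5 * lam / 9 + C * δ) ∨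
    (∃ p q r : Fin 3, p ≠ q ∧ q ≠ r ∧ p ≠ r ∧ ∃ F : Finset (Fin (K + 1)),
      cost v r F + (1 / 2) * ((cost v p univ + v p (Fin.last K) +
          max 0 (3 / 2 * cost v p univ - cost w r F)) +
        (cost v q univ + v q (Fin.last K) +
          max 0 (3 / 2 * cost v q univ - cost w r F))) ≤ 5 * lam / 9 + 1 / (K + 1) + C * δ) ∨
    (∃ p q r : Fin 3, p ≠ q ∧ q ≠ r ∧ p ≠ r ∧ ∃ i : Fin (K + 1), 1 ≤ (i : ℕ) ∧ (i : ℕ) < K ∧
      cost v p {i}ᶜ + cost v q univ ≤ 5 * lam / 9 + C * δ ∧
      (1 / 2) * (cost v p {i}ᶜ + cost v q univ) + cost v r univ ≤ 5 * lam / 9 + C * δ) ∨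
    (∃ p q r : Fin 3, p ≠ q ∧ q ≠ r ∧ p ≠ r ∧ ∃ i : Fin (K + 1), 1 ≤ (i : ℕ) ∧ (i : ℕ) < K ∧
      cost v r univ ≤ 5 * lam / 9 + C * δ ∧
      (1 / 2) * cost v r univ + (cost v p {i}ᶜ + cost v q univ) ≤ 5 * lam / 9 + C * δ)

variable {K : ℕ}

theorem core5 (lam : ℝ) (hl0 : 0 < lam) (hl1 : lam ≤ 3 / 5) (hK : 11 / lam ≤ (K : ℝ))
    (δ : ℝ) (hδ : 0 ≤ δ) (v w : Fin 3 → Fin (K + 1) → ℝ) (hP : Poly K lam δ v w)
    (p q r : Fin 3)
    (hsum : cost v p univ + cost v q univ + cost v r univ ≤ lam)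
    (h1 : cost v p univ ≤ cost v q univ) (h2 : cost v p univ ≤ cost v r univ)
    (hW : 1 - δ ≤ cost w r univ)
    (hT1 : 5 * lam / 9 + 20 * δ < cost v p univ + cost v q univ)
    (hT2 : 5 * lam / 9 + 20 * δ < cost v p univ + cost v r univ)
    (hE : ∀ F : Finset (Fin (K + 1)), 5 * lam / 9 + 1 / (K + 1) + 20 * δ <
      cost v r F + (1 / 2) * ((cost v p univ + v p (Fin.last K) +
          max 0 (3 / 2 * cost v p univ - cost w r F)) +
        (cost v q univ + v q (Fin.last K) +
          max 0 (3 / 2 * cost v q univ - cost w r F))))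
    (hD : ∀ i : Fin (K + 1), 1 ≤ (i : ℕ) → (i : ℕ) < K →
      cost v r {i}ᶜ + cost v q univ ≤ 5 * lam / 9 + 20 * δ →
      5 * lam / 9 + 20 * δ < (1 / 2) * (cost v r {i}ᶜ + cost v q univ) + cost v p univ)
    (hDp : ∀ i : Fin (K + 1), 1 ≤ (i : ℕ) → (i : ℕ) < K →
      cost v q univ ≤ 5 * lam / 9 + 20 * δ →
      5 * lam / 9 + 20 * δ < (1 / 2) * cost v q univ + (cost v r {i}ᶜ + cost v p univ)) :
    False := by
  classical
  have hv := hP.v_nonneg
  have hw : ∀ j i, 0 ≤ w j i := fun j i => (hP.v_nonneg j i).trans (w_ge lam δ v w hP j i)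
  have hlp := last_le lam δ v w hP p
  have hlq := last_le lam δ v w hP q
  have hVp : 0 ≤ cost v p univ := cost_nonneg v hv p univ
  have hVq : 0 ≤ cost v q univ := cost_nonneg v hv q univ
  have hVr : 0 ≤ cost v r univ := cost_nonneg v hv r univ
  obtain ⟨P, hPd⟩ : ∃ P, P = cost v p univ := ⟨_, rfl⟩
  obtain ⟨Q, hQd⟩ : ∃ Q, Q = cost v q univ := ⟨_, rfl⟩
  obtain ⟨R, hRd⟩ : ∃ R, R = cost v r univ := ⟨_, rfl⟩
  obtain ⟨W, hWd⟩ : ∃ W, W = cost w r univ := ⟨_, rfl⟩
  rw [← hPd, ← hQd, ← hRd] at hsum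
  rw [← hPd, ← hQd] at h1 hT1
  rw [← hPd, ← hRd] at h2 hT2
  rw [← hWd] at hW
  rw [← hPd] at hVp
  rw [← hQd] at hVq
  rw [← hRd] at hVr
  simp only [← hPd, ← hQd] at hE hD hDp
  have hE1 : ∀ F : Finset (Fin (K + 1)), 5 * lam / 9 + 20 * δ <
      cost v r F + 1 / 2 * (P + Q) + 1 / 2 * max 0 (3 / 2 * P - cost w r F) +
        1 / 2 * max 0 (3 / 2 * Q - cost w r F) := by
    intro F
    have := hE F
    linarith
  have hδ' : δ ≤ 1 / 300 := by linarith
  have hwn : ∀ F : Finset (Fin (K + 1)), 0 ≤ cost w r F := fun F =>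
    Finset.sum_nonneg fun i _ => hw r i
  have hvn : ∀ F : Finset (Fin (K + 1)), 0 ≤ cost v r F := fun F =>
    Finset.sum_nonneg fun i _ => hv r i
  -- `F` and its complement are not both light
  have hi : ∀ F : Finset (Fin (K + 1)), cost w r F < 3 / 2 * Q → W - cost w r F < 3 / 2 * Q →
      False := by
    intro F a1 a2
    have e1 := hE1 F
    have e2 := hE1 Fᶜ
    rw [cost_compl v, cost_compl w, ← hRd, ← hWd] at e2
    rw [max_eq_left (show 3 / 2 * P - cost w r F ≤ 0 by linarith),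
      max_eq_right (show 0 ≤ 3 / 2 * Q - cost w r F by linarith)] at e1
    rw [max_eq_left (show 3 / 2 * P - (W - cost w r F) ≤ 0 by linarith),
      max_eq_right (show 0 ≤ 3 / 2 * Q - (W - cost w r F) by linarith)] at e2
    linarith
  -- no loss
  have hii : ∀ F : Finset (Fin (K + 1)), 3 / 2 * Q ≤ cost w r F →
      5 * lam / 9 + 20 * δ < cost v r F + 1 / 2 * (P + Q) := by
    intro F a1
    have e1 := hE1 F
    rw [max_eq_left (show 3 / 2 * P - cost w r F ≤ 0 by linarith),
      max_eq_left (show 3 / 2 * Q - cost w r F ≤ 0 by linarith)] at e1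
    linarith
  have hiii : ∀ F : Finset (Fin (K + 1)), 3 / 2 * Q ≤ W - cost w r F →
      5 * lam / 9 + 20 * δ < R - cost v r F + 1 / 2 * (P + Q) := by
    intro F a1
    have e1 := hii Fᶜ (by rw [cost_compl w, ← hWd]; exact a1)
    rw [cost_compl v, ← hRd] at e1
    exact e1
  -- not both heavy
  have hiv : ∀ F : Finset (Fin (K + 1)), 3 / 2 * Q ≤ cost w r F →
      W - cost w r F < 3 / 2 * Q := by
    intro F a1
    by_contra a2
    push Not at a2
    have e1 := hii F a1
    have e2 := hiii F a2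
    linarith
  have hv' : ∀ F : Finset (Fin (K + 1)), cost w r F < 3 / 2 * Q →
      3 / 2 * Q ≤ W - cost w r F := by
    intro F a1
    by_contra a2
    push Not at a2
    exact hi F a1 a2
  -- no partition in three light sets
  have hvi : ∀ A B C : Finset (Fin (K + 1)), cost w r A < 3 / 2 * Q → cost w r B < 3 / 2 * Q →
      cost w r C < 3 / 2 * Q → cost w r A + cost w r B + cost w r C = W →
      cost v r A + cost v r B + cost v r C = R → False := by
    intro A B C a1 a2 a3 a4 a5
    have b1 := hiii A (hv' A a1)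
    have b2 := hiii B (hv' B a2)
    have b3 := hiii C (hv' C a3)
    have hR : lam / 3 < R := by linarith
    have c1 := hE1 A
    have c2 := hE1 B
    have c3 := hE1 C
    rw [max_eq_right (show 0 ≤ 3 / 2 * Q - cost w r A by linarith)] at c1
    rw [max_eq_right (show 0 ≤ 3 / 2 * Q - cost w r B by linarith)] at c2
    rw [max_eq_right (show 0 ≤ 3 / 2 * Q - cost w r C by linarith)] at c3
    rcases max_choice (0 : ℝ) (3 / 2 * P - cost w r A) with d1 | d1 <;>
      rcases max_choice (0 : ℝ) (3 / 2 * P - cost w r B) with d2 | d2 <;>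
        rcases max_choice (0 : ℝ) (3 / 2 * P - cost w r C) with d3 | d3 <;>
          rw [d1] at c1 <;> rw [d2] at c2 <;> rw [d3] at c3
    · linarith
    · linarith
    · linarith
    · have e1 : 0 ≤ 3 / 2 * P - cost w r B := d2 ▸ le_max_left _ _
      have e2 : 0 ≤ 3 / 2 * P - cost w r C := d3 ▸ le_max_left _ _
      linarith
    · linarith
    · have e1 : 0 ≤ 3 / 2 * P - cost w r A := d1 ▸ le_max_left _ _
      have e2 : 0 ≤ 3 / 2 * P - cost w r C := d3 ▸ le_max_left _ _
      linarith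
    · have e1 : 0 ≤ 3 / 2 * P - cost w r A := d1 ▸ le_max_left _ _
      have e2 : 0 ≤ 3 / 2 * P - cost w r B := d2 ▸ le_max_left _ _
      linarith
    · have e1 : 0 ≤ 3 / 2 * P - cost w r A := d1 ▸ le_max_left _ _
      have e2 : 0 ≤ 3 / 2 * P - cost w r B := d2 ▸ le_max_left _ _
      linarith
  -- a minimal heavy set
  obtain ⟨F, hF, hmin⟩ := Finset.exists_min_image
    ((univ : Finset (Finset (Fin (K + 1)))).filter fun F => 3 / 2 * Q ≤ cost w r F)
    (fun F => F.card) ⟨univ, by
      simp only [mem_filter, mem_univ, true_and]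
      rw [← hWd]
      linarith⟩
  have hFh : 3 / 2 * Q ≤ cost w r F := (mem_filter.1 hF).2
  have hlight : ∀ F' : Finset (Fin (K + 1)), F'.card < F.card → cost w r F' < 3 / 2 * Q := by
    intro F' h3
    by_contra h4
    push Not at h4
    have := hmin F' (mem_filter.2 ⟨mem_univ _, h4⟩)
    omega
  have hne : F.Nonempty := by
    rw [Finset.nonempty_iff_ne_empty]
    rintro rfl
    unfold cost at hFh
    rw [sum_empty] at hFh
    linarith
  obtain ⟨i, hiF⟩ := hne
  have hFi : F = {i} := by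
    by_contra hne'
    have hcard : 1 < F.card := by
      by_contra h3
      have h4 : F.card = 1 := by
        have : 0 < F.card := Finset.card_pos.2 ⟨i, hiF⟩
        omega
      obtain ⟨j, hj⟩ := Finset.card_eq_one.1 h4
      rw [hj, mem_singleton] at hiF
      rw [hiF] at hne'
      exact hne' hj
    have e1 : ∀ u : Fin 3 → Fin (K + 1) → ℝ, cost u r {i} + cost u r (F.erase i) = cost u r F := by
      intro u
      unfold cost
      rw [sum_singleton]
      exact Finset.add_sum_erase F (fun i => u r i) hiF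
    refine hvi {i} (F.erase i) Fᶜ (hlight _ (by rw [card_singleton]; exact hcard))
      (hlight _ (by rw [Finset.card_erase_of_mem hiF]; omega)) ?_ ?_ ?_
    · rw [cost_compl w, ← hWd]
      exact hiv F hFh
    · rw [cost_compl w, ← hWd]
      linarith [e1 w]
    · rw [cost_compl v, ← hRd]
      linarith [e1 v]
  subst hFi
  have hM := hii {i} hFh
  have hL := hiv {i} hFh
  rw [cost_single] at hM hFh hL
  have hMR : v r i ≤ R := by
    rw [hRd]
    unfold cost
    exact Finset.single_le_sum (fun i _ => hv r i) (mem_univ _)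
  by_cases hi0 : (i : ℕ) = 0
  · by_cases hK0 : 0 < K
    · have e2 := hP.w_eq r i (by omega)
      rw [hi0] at e2
      simp only [Nat.cast_zero, zero_add, one_mul] at e2
      linarith
    · have : (K : ℝ) = 0 := by
        have : K = 0 := by omega
        exact_mod_cast this
      rw [this] at hK
      have : 0 < 11 / lam := by positivity
      linarith
  · by_cases hiK : (i : ℕ) < K
    · have e2 := hD i (by omega) hiK
      have e3 := hDp i (by omega) hiK (by linarith)
      rw [cost_compl v, cost_single, ← hRd] at e2 e3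
      have e4 := e2 (by linarith)
      linarith
    · have e4 : i = Fin.last K := by
        apply Fin.ext
        have := i.2
        simp only [Fin.val_last]
        omega
      have e5 := last_le lam δ v w hP r
      rw [← e4] at e5
      have hKp : (0 : ℝ) < (K : ℝ) + 1 := by positivity
      have e6 : 1 / ((K : ℝ) + 1) ≤ lam / 11 := by
        rw [div_le_div_iff₀ hKp (by norm_num)]
        rw [div_le_iff₀ hl0] at hK
        nlinarith
      linarith

theorem stmtNum5 : StmtNum5 := by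
  intro lam hl0 hl1
  obtain ⟨K₀, hK₀⟩ := exists_nat_ge (11 / lam)
  refine ⟨K₀, 20, by norm_num, ?_⟩
  intro K hK δ v w hδ hP
  have hK' : 11 / lam ≤ (K : ℝ) := hK₀.trans (by exact_mod_cast hK)
  by_contra hcon
  push Not at hcon
  obtain ⟨hT, hE, hD, hDp⟩ := hcon
  have htot := hP.tot
  have key : ∀ p q r : Fin 3, p ≠ q → q ≠ r → p ≠ r →
      cost v p univ + cost v q univ + cost v r univ ≤ lam → 1 - δ ≤ cost w r univ →
      cost v p univ ≤ cost v q univ → cost v p univ ≤ cost v r univ → False := by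
    intro p q r hpq hqr hpr hs hW a1 a2
    exact core5 lam hl0 hl1 hK' δ hδ v w hP p q r hs a1 a2 hW
      (hT p q hpq) (hT p r hpr) (fun F => hE p q r hpq hqr hpr F)
      (fun i b1 b2 b3 => hD r q p hqr.symm hpq.symm hpr.symm i b1 b2 b3)
      (fun i b1 b2 b3 => hDp r p q hpr.symm hpq hqr.symm i b1 b2 b3)
  rcases le_total (cost v 1 univ) (cost v 2 univ) with c | c
  · rcases le_total (cost v 0 univ) (cost v 1 univ) with c' | c'
    · exact key 0 1 2 (by decide) (by decide) (by decide) (by linarith) hP.w2' c' (by linarith)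
    · exact key 1 0 2 (by decide) (by decide) (by decide) (by linarith) hP.w2' c' c
  · rcases le_total (cost v 0 univ) (cost v 2 univ) with c' | c'
    · exact key 0 2 1 (by decide) (by decide) (by decide) (by linarith) hP.w1' c' (by linarith)
    · exact key 2 0 1 (by decide) (by decide) (by decide) (by linarith) hP.w1' c' c

end Pool.Agent.U663.DP
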