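import Mathlib
import Pool.Agent.U663.AB.Fail8
import Pool.Agent.U663.DP.Dp

/-!
# The bound for cells from the failure of all bounds being impossible (after `cell_bound8`, with
the second difference bound in addition)
-/

set_option autoImplicit false

namespace Pool.Agent.U663.DP

open Finset Pool.Agent.H785R2.ABC Pool.Agent.H785R2.ABC.Bridge Pool.Agent.H705R2.ABC
  Pool.Agent.W221.ABC7 Pool.Agent.U663.AB

/-- all bounds fail at the level `t` -/
structure Fail10 (v w : Fin 3 → Fin 8 → ℝ) (t : ℝ) : Prop extends Fail8 v w t where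
  P : ∀ p q r : Fin 3, p ≠ q → q ≠ r → p ≠ r → ∀ i : Fin 8, 1 ≤ (i : ℕ) → (i : ℕ) < 7 →
    t < cost v r univ ∨
    t < (1 / 2) * cost v r univ + (cost v p {i}ᶜ + cost v q univ)

theorem cell_bound10 (hF : Basics) (hP : StmtPoly) (hM : StmtMcell) (hE : StmtEst) (hN : StmtEst2) (hDp : StmtDp)
    (hD : StmtDc) (hB : StmtBridge) (lam θ : ℝ)
    (hno : ∀ δ : ℝ, 0 ≤ δ → ∀ v w : Fin 3 → Fin 8 → ℝ, Poly 7 lam δ v w →
      Fail10 v w (θ + 1000 * δ) → False) : ∀ ε : ℝ, 0 < ε → ∃ (K : ℕ) (D : ℝ), 0 < D ∧ ∀ T : Finset (ℕ × ℕ × ℕ),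
    Cell K T → Cell 7 T →
    (∀ s ∈ T, (rad (s.1 * s.2.1 * s.2.2) : ℝ) ≤ (s.2.2 : ℝ) ^ lam) → ∀ s ∈ T,
    (T.card : ℝ) ≤ D * (s.2.2 : ℝ) ^ (θ + ε) := by
  intro ε hε
  set K : ℕ := max 7 ⌈2 / ε⌉₊ with hK
  have hK4 : 7 ≤ K := le_max_left _ _
  have hKε : 1 / ((K : ℝ) + 1) ≤ ε / 2 := by
    have h1 : 2 / ε ≤ (K : ℝ) := (Nat.le_ceil _).trans (by exact_mod_cast le_max_right _ _)
    rw [div_le_iff₀ hε] at h1
    rw [div_le_div_iff₀ (by positivity) (by norm_num)]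
    nlinarith
  obtain ⟨D₁, hD₁, H₁⟩ := hM 7 (ε / 2) (by positivity)
  obtain ⟨D₂, hD₂, H₂⟩ := hE K (ε / 2) (by positivity)
  obtain ⟨D₃, hD₃, H₃⟩ := hD 7 (ε / 2) (by positivity)
  obtain ⟨D₄, hD₄, H₄⟩ := hB 7 (ε / 2) (by positivity)
  obtain ⟨D₆, hD₆, H₆⟩ := hDp 7 (ε / 2) (by positivity)
  choose D5 hD5 H5 using fun a b : ℕ => hN 7 a b 3 (ε / 2) (by positivity)
  set D₅ : ℝ := ∑ a ∈ range 4, ∑ b ∈ range 4, D5 a b with hD₅d
  have hD5le : ∀ a b : ℕ, a < 4 → b < 4 → D5 a b ≤ D₅ := by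
    intro a b ha hb
    have h1 := single_le_sum (f := fun b => D5 a b) (s := range 4) (fun b _ => (hD5 a b).le)
      (mem_range.2 hb)
    have h2 := single_le_sum (f := fun a => ∑ b ∈ range 4, D5 a b) (s := range 4)
      (fun a _ => sum_nonneg fun b _ => (hD5 a b).le) (mem_range.2 ha)
    exact h1.trans h2
  have hD₅ : 0 < D₅ := (hD5 0 0).trans_le (hD5le 0 0 (by norm_num) (by norm_num))
  refine ⟨K, 25 * (D₁ + D₂ + D₃ + D₄ + D₅ + D₆) * Real.exp (1000 * Real.log 2), by positivity, ?_⟩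
  intro T hT hT4 hrad s hs
  have h := hT.abc s hs
  have hc2 : (2 : ℝ) ≤ s.2.2 := by exact_mod_cast two_le_c h
  have hc : (0 : ℝ) < s.2.2 := by linarith
  have hc1 : (1 : ℝ) ≤ s.2.2 := by linarith
  have hlog : 0 < Real.log s.2.2 := Real.log_pos (by linarith)
  have hpoly := hP 7 lam s h (hT.le s hs) (hrad s hs)
  have hpolyK := hP K lam s h (hT.le s hs) (hrad s hs)
  have hδ : 0 ≤ Real.log 2 / Real.log s.2.2 :=
    div_nonneg (Real.log_nonneg (by norm_num)) hlog.le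
  set δ : ℝ := Real.log 2 / Real.log s.2.2 with hδd
  by_contra hcon
  push Not at hcon
  have hEx : 0 < Real.exp (1000 * Real.log 2) := Real.exp_pos _
  set B : ℝ := Real.exp (1000 * Real.log 2) * (s.2.2 : ℝ) ^ (θ + ε / 2) with hB
  have hB0 : 0 < B := mul_pos hEx (Real.rpow_pos_of_pos hc _)
  have hpw : ∀ y : ℝ, y ≤ θ + 1000 * δ + ε / 2 → (s.2.2 : ℝ) ^ y ≤ B := by
    intro y hy
    calc (s.2.2 : ℝ) ^ y ≤ (s.2.2 : ℝ) ^ ((θ + ε / 2) + 1000 * δ) :=
          Real.rpow_le_rpow_of_exponent_le hc1 (by linarith)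
      _ = B := by
          rw [Real.rpow_add hc, mul_comm, hB]
          congr 1
          rw [Real.rpow_def_of_pos hc]
          congr 1
          rw [hδd]
          field_simp
  have hcε : 0 < (s.2.2 : ℝ) ^ (ε / 2) := Real.rpow_pos_of_pos hc _
  have hfin : ∀ D : ℝ, 0 < D → D ≤ D₁ + D₂ + D₃ + D₄ + D₅ + D₆ → ∀ y : ℝ, y ≤ 25 * B →
      (T.card : ℝ) ≤ D * (s.2.2 : ℝ) ^ (ε / 2) * y → False := by
    intro D hD0 hDle y hy hcard
    have h1 : (T.card : ℝ) ≤ 25 * (D₁ + D₂ + D₃ + D₄ + D₅ + D₆) * Real.exp (1000 * Real.log 2) *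
        (s.2.2 : ℝ) ^ (θ + ε) := by
      calc (T.card : ℝ) ≤ D * (s.2.2 : ℝ) ^ (ε / 2) * y := hcard
        _ ≤ D * (s.2.2 : ℝ) ^ (ε / 2) * (25 * B) :=
            mul_le_mul_of_nonneg_left hy (by positivity)
        _ ≤ (D₁ + D₂ + D₃ + D₄ + D₅ + D₆) * (s.2.2 : ℝ) ^ (ε / 2) * (25 * B) := by
            apply mul_le_mul_of_nonneg_right _ (by positivity)
            exact mul_le_mul_of_nonneg_right hDle hcε.le
        _ = 25 * (D₁ + D₂ + D₃ + D₄ + D₅ + D₆) * Real.exp (1000 * Real.log 2) *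
          (s.2.2 : ℝ) ^ (θ + ε) := by
            have e : (s.2.2 : ℝ) ^ (θ + ε) =
                (s.2.2 : ℝ) ^ (ε / 2) * (s.2.2 : ℝ) ^ (θ + ε / 2) := by
              rw [← Real.rpow_add hc]
              congr 1
              ring
            rw [e, hB]
            ring
    linarith
  refine hno δ hδ (expV 7 s) (expW 7 s) hpoly ⟨⟨⟨?_, ?_, ?_, ?_⟩, ?_⟩, ?_⟩
  · intro p q r h1 h2 h3 k hk1 hk2 Sp Sq F hp hq
    by_contra hc'
    push Not at hc'
    obtain ⟨b1, b2⟩ := hc'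
    refine hfin D₁ hD₁ (by linarith) _ ?_
      ((H₁ T hT4 s hs p q r h1 h2 h3 k hk1 hk2 Sp Sq F hp hq).trans (le_of_eq (mul_assoc _ _ _)))
    rw [rd_eq hF 7 h, rd_eq hF 7 h, rd_eq hF 7 h, part_eq hF 7 h, part_eq hF 7 h, part_eq hF 7 h,
      th_eq hF 7 h, ← Real.rpow_add hc, ← Real.rpow_add hc, ← Real.rpow_add hc,
      ← Real.rpow_mul hc.le, ← Real.rpow_add hc, ← Real.rpow_sub hc, mul_add, mul_one,
      ← Real.rpow_add hc]
    have c1 := hpw _ (b1.trans (by linarith))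
    have c2 := hpw (cost (expV 7 s) p Spᶜ + cost (expV 7 s) q Sqᶜ + cost (expV 7 s) r F +
      (-thn (expW 7 s) r + (cost (expW 7 s) p Sp + cost (expW 7 s) q Sq) * (1 / (k : ℝ)) -
        cost (expW 7 s) r F)) (by
          have : (cost (expW 7 s) p Sp + cost (expW 7 s) q Sq) * (1 / (k : ℝ)) =
            (cost (expW 7 s) p Sp + cost (expW 7 s) q Sq) / k := by ring
          rw [this]
          linarith)
    linarith
  · intro p q r h1 h2 h3 F
    by_contra hc'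
    push Not at hc'
    have hbound := H₂ T hT s hs p q r h1 h2 h3 (lift K F)
    rw [mul_assoc (D₂ * (s.2.2 : ℝ) ^ (ε / 2))] at hbound
    refine hfin D₂ hD₂ (by linarith) _ ?_ hbound
    have hs1 := Cel.side_le hF K h r p (lift K F)
    have hs2 := Cel.side_le hF K h r q (lift K F)
    rw [← lift_univ K, costV_lift hF K hK4 h, costW_lift hF K hK4 h] at hs1 hs2
    have hlp := NumM.last_le lam δ (expV K s) (expW K s) hpolyK p
    have hlq := NumM.last_le lam δ (expV K s) (expW K s) hpolyK q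
    set ap : ℝ := cost (expV 7 s) p univ + expV K s p (Fin.last K) +
      max 0 (3 / 2 * cost (expV 7 s) p univ - cost (expW 7 s) r F) with hap
    set aq : ℝ := cost (expV 7 s) q univ + expV K s q (Fin.last K) +
      max 0 (3 / 2 * cost (expV 7 s) q univ - cost (expW 7 s) r F) with haq
    have e1 : (side K s r p (lift K F) * side K s r q (lift K F)) ^ ((1 : ℝ) / 2) ≤
        2 * (s.2.2 : ℝ) ^ ((1 / 2) * (ap + aq)) := by
      calc (side K s r p (lift K F) * side K s r q (lift K F)) ^ ((1 : ℝ) / 2) ≤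
          ((2 * (s.2.2 : ℝ) ^ ap) * (2 * (s.2.2 : ℝ) ^ aq)) ^ ((1 : ℝ) / 2) := by
            apply Real.rpow_le_rpow
              (mul_nonneg (Cel.side_nonneg _ _ _ _ _) (Cel.side_nonneg _ _ _ _ _)) _ (by norm_num)
            exact mul_le_mul hs1 hs2 (Cel.side_nonneg _ _ _ _ _) (by positivity)
        _ = (2 ^ 2 * (s.2.2 : ℝ) ^ (ap + aq)) ^ ((1 : ℝ) / 2) := by
            rw [Real.rpow_add hc ap aq]
            congr 1
            ring
        _ = 2 * (s.2.2 : ℝ) ^ ((1 / 2) * (ap + aq)) := by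
            have e4 : ((2 : ℝ) ^ 2) ^ ((1 : ℝ) / 2) = 2 := by
              rw [← Real.sqrt_eq_rpow, Real.sqrt_sq (by norm_num)]
            rw [Real.mul_rpow (by positivity) (by positivity), ← Real.rpow_mul hc.le, e4,
              mul_comm (ap + aq)]
    have e2 : (rd K (num s r) (lift K F) : ℝ) = (s.2.2 : ℝ) ^ cost (expV 7 s) r F := by
      rw [rd_lift K hK4, rd_eq hF 7 h]
    rw [e2]
    refine le_trans (b := 2 * B) ?_ (by linarith)
    calc (s.2.2 : ℝ) ^ cost (expV 7 s) r F *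
          (side K s r p (lift K F) * side K s r q (lift K F)) ^ ((1 : ℝ) / 2)
        ≤ (s.2.2 : ℝ) ^ cost (expV 7 s) r F * (2 * (s.2.2 : ℝ) ^ ((1 / 2) * (ap + aq))) :=
          mul_le_mul_of_nonneg_left e1 (Real.rpow_nonneg hc.le _)
      _ = 2 * (s.2.2 : ℝ) ^ (cost (expV 7 s) r F + (1 / 2) * (ap + aq)) := by
          rw [Real.rpow_add hc]
          ring
      _ ≤ 2 * B := by
          apply mul_le_mul_of_nonneg_left _ (by norm_num)
          apply hpw
          rw [hap, haq]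
          linarith
  · intro p q r h1 h2 h3 i hi1 hi2
    by_contra hc'
    push Not at hc'
    obtain ⟨b1, b2⟩ := hc'
    refine hfin D₃ hD₃ (by linarith) _ ?_ (H₃ T hT4 s hs p q r h1 h2 h3 i hi1 hi2)
    rw [rd_eq hF 7 h, rd_eq hF 7 h, rd_eq hF 7 h, ← Real.rpow_add hc, ← Real.rpow_mul hc.le,
      ← Real.rpow_add hc]
    have c1 := hpw _ (b1.trans (by linarith))
    have c2 := hpw ((cost (expV 7 s) p {i}ᶜ + cost (expV 7 s) q univ) * (1 / 2) +
      cost (expV 7 s) r univ) (by linarith)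
    linarith
  · intro p q r h1 h2 h3 F op oq hop hoq
    by_contra hc'
    push Not at hc'
    refine hfin D₄ hD₄ (by linarith) _ ?_
      (H₄ T hT4 s hs (Bnd.E p q r F op oq) ⟨h1, h2, h3, hop, hoq⟩)
    have hlen : ∀ (j : Fin 3) (o : Opt 7), (o.pieces (expV 7 s) (expW 7 s) r j F).length ≤ 4 := by
      intro j o
      cases o <;> simp [Opt.pieces]
    have hlen2 : ((Bnd.E (K := 7) p q r F op oq).pieces (expV 7 s) (expW 7 s)).length ≤ 25 := by
      have l1 := hlen p op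
      have l2 := hlen q oq
      simp only [Bnd.pieces, List.length_cons, List.length_append, List.length_map,
        List.length_flatMap, List.map_const', List.sum_replicate, smul_eq_mul]
      nlinarith
    have h4 := List.sum_le_card_nsmul
      (((Bnd.E (K := 7) p q r F op oq).pieces (expV 7 s) (expW 7 s)).map
        fun x => (s.2.2 : ℝ) ^ x) B (by
        intro y hy
        obtain ⟨x, hx, rfl⟩ := List.mem_map.1 hy
        exact hpw x ((hc' x hx).trans (by linarith)))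
    rw [List.length_map, nsmul_eq_mul] at h4
    refine h4.trans (mul_le_mul_of_nonneg_right ?_ hB0.le)
    exact_mod_cast hlen2
  · intro p q r h1 h2 h3 F op oq hop hoq
    by_contra hc'
    push Not at hc'
    have hbound := H5 op.hh oq.hh T hT4 s hs p q r h1 h2 h3 F op.gr op.mm oq.gr oq.mm
      (Sch.adm hop) (Sch.adm hoq)
    have hop4 : op.hh < 4 := by cases op <;> simp [Sch.hh]
    have hoq4 : oq.hh < 4 := by cases oq <;> simp [Sch.hh]
    rw [mul_assoc (D5 op.hh oq.hh * (s.2.2 : ℝ) ^ (ε / 2))] at hbound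
    have hDle := hD5le _ _ hop4 hoq4
    refine hfin (D5 op.hh oq.hh) (hD5 _ _) (by linarith) _ ?_ hbound
    have hs1 := side2_le hF h r p F hop
    have hs2 := side2_le hF h r q F hoq
    obtain ⟨a₁, ha₁⟩ : ∃ x : ℝ, x = op.en (expV 7 s) (expW 7 s) r p F := ⟨_, rfl⟩
    obtain ⟨a₂, ha₂⟩ : ∃ x : ℝ, x = oq.en (expV 7 s) (expW 7 s) r q F := ⟨_, rfl⟩
    rw [← ha₁] at hs1 hc'
    rw [← ha₂] at hs2 hc'
    have n1 := side2_nonneg 7 s r p F op.gr op.mm
    have n2 := side2_nonneg 7 s r q F oq.gr oq.mm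
    have e1 : (side2 7 s r p F op.gr op.mm * side2 7 s r q F oq.gr oq.mm) ^ ((1 : ℝ) / 2) ≤
        8 * (s.2.2 : ℝ) ^ ((1 / 2) * (a₁ + a₂)) := by
      calc _ ≤ ((8 * (s.2.2 : ℝ) ^ a₁) * (8 * (s.2.2 : ℝ) ^ a₂)) ^ ((1 : ℝ) / 2) := by
            apply Real.rpow_le_rpow (mul_nonneg n1 n2) _ (by norm_num)
            exact mul_le_mul hs1 hs2 n2 (by positivity)
        _ = (8 ^ 2 * (s.2.2 : ℝ) ^ (a₁ + a₂)) ^ ((1 : ℝ) / 2) := by
            rw [Real.rpow_add hc a₁ a₂]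
            congr 1
            ring
        _ = 8 * (s.2.2 : ℝ) ^ ((1 / 2) * (a₁ + a₂)) := by
            have e4 : ((8 : ℝ) ^ 2) ^ ((1 : ℝ) / 2) = 8 := by
              rw [← Real.sqrt_eq_rpow, Real.sqrt_sq (by norm_num)]
            rw [Real.mul_rpow (by positivity) (by positivity), ← Real.rpow_mul hc.le, e4,
              mul_comm (a₁ + a₂)]
    have e2 : (rd 7 (num s r) F : ℝ) = (s.2.2 : ℝ) ^ cost (expV 7 s) r F := by
      rw [rd_eq hF 7 h]
    rw [e2]
    refine le_trans (b := 8 * B) ?_ (by linarith)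
    calc _ ≤ (s.2.2 : ℝ) ^ cost (expV 7 s) r F *
          (8 * (s.2.2 : ℝ) ^ ((1 / 2) * (a₁ + a₂))) :=
          mul_le_mul_of_nonneg_left e1 (Real.rpow_nonneg hc.le _)
      _ = 8 * (s.2.2 : ℝ) ^ (cost (expV 7 s) r F + (1 / 2) * (a₁ + a₂)) := by
          rw [Real.rpow_add hc]
          ring
      _ ≤ 8 * B := by
          apply mul_le_mul_of_nonneg_left _ (by norm_num)
          apply hpw
          linarith
  · intro p q r h1 h2 h3 i hi1 hi2
    by_contra hc'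
    push Not at hc'
    obtain ⟨b1, b2⟩ := hc'
    refine hfin D₆ hD₆ (by linarith) _ ?_ (H₆ T hT4 s hs p q r h1 h2 h3 i hi1 hi2)
    rw [rd_eq hF 7 h, rd_eq hF 7 h, rd_eq hF 7 h, ← Real.rpow_add hc, ← Real.rpow_mul hc.le,
      ← Real.rpow_add hc]
    have c1 := hpw _ (b1.trans (by linarith))
    have c2 := hpw (cost (expV 7 s) r univ * (1 / 2) +
      (cost (expV 7 s) p {i}ᶜ + cost (expV 7 s) q univ)) (by linarith)
    linarith

end Pool.Agent.U663.DP
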