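import Mathlib
import Pool.Agent.U663.AB.Chk9
import Pool.Agent.U663.DP.Cell10

/-!
# The checker of branch and bound certificates, with the second difference bound
-/

set_option autoImplicit false

namespace Pool.Agent.U663.DP

open Finset Pool.Agent.H785R2.ABC Pool.Agent.W221.ABC7 Pool.Agent.W221.ABC7.Fm
  Pool.Agent.U663.AB

def pP (p q r i : ℕ) : List Fm :=
  [mul 840 (V r 255),
    add (mul 420 (V r 255)) (mul 840 (add (sub (V p 255) (V p (Nat.pow 2 i))) (V q 255)))]

def valid10 (kd m : ℕ) : Bool := bif Nat.beq kd 6 then validD m else valid8 kd m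

def pcs10 (kd m : ℕ) : List Fm :=
  bif Nat.beq kd 6 then pP (dg m 0) (dg m 1) (dg m 2) (dg m 3) else pcs8 kd m

section sound0

variable {v w : Fin 3 → Fin 8 → ℝ} {lam δ t : ℝ}

theorem cov_P {p q r i : ℕ} (hp : p < 3) (hq : q < 3) (hr : r < 3) (hi : i < 8) :
    ∀ t : ℝ, (t < cost v (fz r) univ ∨
      t < (1 / 2) * cost v (fz r) univ +
        (cost v (fz p) {Fin.ofNat 8 i}ᶜ + cost v (fz q) univ)) →
    ∃ y, t < y ∧ ∃ f ∈ pP p q r i, Rep (xx v w lam δ) f (840 * y) := by
  intro t ht
  have vp := rep_V (v := v) (w := w) (lam := lam) (δ := δ) p 255 hp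
  have vi := rep_V (v := v) (w := w) (lam := lam) (δ := δ) p (2 ^ i) hp
  have vq := rep_V (v := v) (w := w) (lam := lam) (δ := δ) q 255 hq
  have vr := rep_V (v := v) (w := w) (lam := lam) (δ := δ) r 255 hr
  rw [st_255] at vp vq vr
  rw [st_pow hi] at vi
  have e : cost v (fz p) univ - cost v (fz p) {Fin.ofNat 8 i} =
      cost v (fz p) {Fin.ofNat 8 i}ᶜ := by
    have h := Finset.sum_add_sum_compl {Fin.ofNat 8 i} (fun i => v (fz p) i)
    unfold cost
    linarith
  have c := rep_add (rep_sub vp vi) vq
  rw [e] at c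
  rcases ht with h | h
  · exact ⟨_, h, _, List.mem_cons_self, rep_congr (rep_mul 840 vr) (by push_cast; ring)⟩
  · refine ⟨_, h, _, List.mem_cons_of_mem _ List.mem_cons_self,
      rep_congr (rep_add (rep_mul 420 vr) (rep_mul 840 c)) ?_⟩
    push_cast
    ring

theorem node_sound10 (hw : Wt v w) (hf : Fail10 v w t) (kd m : ℕ) (h : valid10 kd m = true) :
    ∃ y, t < y ∧ ∃ f ∈ pcs10 kd m, Rep (xx v w lam δ) f (840 * y) := by
  unfold valid10 at h
  unfold pcs10
  cases h1 : Nat.beq kd 6
  · rw [h1] at h
    exact node_sound8 hw hf.toFail8 kd m h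
  · rw [h1] at h
    simp only [cond_true] at h ⊢
    unfold validD at h
    rw [Bool.and_eq_true, Bool.and_eq_true] at h
    obtain ⟨⟨g1, g2⟩, g3⟩ := h
    obtain ⟨hp, hq, hr, n1, n2, n3⟩ := perm_of g1
    have i1 : 1 ≤ dg m 3 := Nat.le_of_ble_eq_true g2
    have i2 : dg m 3 < 7 := Nat.le_of_ble_eq_true g3
    have i3 : ((Fin.ofNat 8 (dg m 3) : Fin 8) : ℕ) = dg m 3 :=
      Nat.mod_eq_of_lt (by omega)
    exact cov_P hp hq hr (by omega) t
      (hf.P _ _ _ n1 n2 n3 (Fin.ofNat 8 (dg m 3)) (by omega) (by omega))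

end sound0

/-- the run of a certificate: a list of codes against a stack of goals -/
def run10 (P : Prm) : List ℕ → List (List Fm) → Bool
  | [], gs => gs.isEmpty
  | n :: ns, gs => match gs with
    | [] => false
    | g :: gs => bif Nat.beq (Nat.mod n 8) 0 then leafOk (baseR P) g (Nat.div n 8) && run10 P ns gs
      else valid10 (Nat.mod n 8) (Nat.div n 8) &&
        run10 P ns (expand P g gs (pcs10 (Nat.mod n 8) (Nat.div n 8)))

section sound

variable {v w : Fin 3 → Fin 8 → ℝ} {lam δ t : ℝ}

theorem run10_sound (P : Prm) (hd : 0 < P.den) (hx : ∀ j, 0 ≤ xx v w lam δ j) (hw : Wt v w)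
    (hb : ∀ f ∈ baseR P, ∃ r, Rep (xx v w lam δ) f r ∧ 0 ≤ r)
    (hf : Fail10 v w (P.th lam + 1000 * δ)) : ∀ (ns : List ℕ) (gs : List (List Fm)),
    run10 P ns gs = true → ∀ g ∈ gs, Goal (xx v w lam δ) g := by
  intro ns
  induction ns with
  | nil =>
    intro gs h g hg
    have h' : gs.isEmpty = true := h
    rw [List.isEmpty_iff] at h'
    rw [h'] at hg
    exact absurd hg List.not_mem_nil
  | cons n ns ih =>
    intro gs h g hg
    cases gs with
    | nil => exact absurd hg List.not_mem_nil
    | cons g₀ gs =>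
      have h' : (bif Nat.beq (Nat.mod n 8) 0 then
          leafOk (baseR P) g₀ (Nat.div n 8) && run10 P ns gs
        else valid10 (Nat.mod n 8) (Nat.div n 8) &&
          run10 P ns (expand P g₀ gs (pcs10 (Nat.mod n 8) (Nat.div n 8)))) = true := h
      cases hk : Nat.beq (Nat.mod n 8) 0
      · rw [hk, cond_false, Bool.and_eq_true] at h'
        obtain ⟨h1, h2⟩ := h'
        have h3 := ih _ h2
        rcases List.mem_cons.1 hg with rfl | hg'
        · intro hrows
          obtain ⟨y, hy, f, hfm, hrep⟩ := node_sound10 (lam := lam) (δ := δ) hw hf _ _ h1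
          refine h3 _ (expand_mem P g gs _ f hfm) ?_
          intro f' hf'
          rcases List.mem_cons.1 hf' with rfl | hf''
          · refine ⟨_, rep_sub (rep_mul P.den hrep) (rep_tf P hd), ?_⟩
            have hd' : (0 : ℝ) < P.den := by exact_mod_cast hd
            nlinarith
          · exact hrows f' hf''
        · exact h3 g (expand_mem' P g₀ gs _ g hg')
      · rw [hk, cond_true, Bool.and_eq_true] at h'
        obtain ⟨h1, h2⟩ := h'
        rcases List.mem_cons.1 hg with rfl | hg'
        · intro hrows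
          exact leafOk_sound hx _ _ _ hb hrows h1
        · exact ih gs h2 g hg'

theorem fail10_sw {t : ℝ} (h : Fail10 v w t) :
    Fail10 (fun j => v (sw j)) (fun j => w (sw j)) t := by
  refine ⟨fail8_sw h.toFail8, ?_⟩
  intro p q r h1 h2 h3 i hi1 hi2
  exact h.P (sw p) (sw q) (sw r) (sw_inj h1) (sw_inj h2) (sw_inj h3) i hi1 hi2

/-- a successful run shows that not all bounds fail -/
theorem no_fail10 (P : Prm) (ns : List ℕ) (hrun : run10 P ns [[]] = true) (hd : 0 < P.den)
    (lam δ : ℝ) (hl : 0 ≤ lam) (hδ : 0 ≤ δ) (hlo : (P.lon : ℝ) ≤ P.lod * lam)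
    (hhi : P.hid * lam ≤ P.hin) (v w : Fin 3 → Fin 8 → ℝ) (hP : Poly 7 lam δ v w)
    (h : Fail10 v w (P.th lam + 1000 * δ)) : False := by
  have key : ∀ v w : Fin 3 → Fin 8 → ℝ, Poly 7 lam δ v w → Fail10 v w (P.th lam + 1000 * δ) →
      cost v 2 univ ≤ cost v 1 univ → False := by
    intro v w hP h hle
    exact run10_sound P hd (xx_nonneg hP hl hδ) (wt_of hP) (base_sound P hP (wt_of hP) hle hlo hhi)
      h ns [[]] hrun [] List.mem_cons_self (fun f hf => absurd hf List.not_mem_nil)
  rcases le_total (cost v 2 univ) (cost v 1 univ) with hc | hc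
  · exact key v w hP h hc
  · refine key (fun j => v (sw j)) (fun j => w (sw j)) ?_ (fail10_sw h) hc
    exact ⟨fun j i => hP.v_nonneg _ i, fun j i hi => hP.w_eq _ i hi, fun j => hP.w_last _,
      hP.w0, hP.w2, hP.w2', hP.w1, hP.w1', by
        have := hP.tot
        have e : ∀ j, cost (fun j => v (sw j)) j univ = cost v (sw j) univ := fun j => rfl
        rw [e, e, e]
        change cost v 0 univ + cost v 2 univ + cost v 1 univ ≤ lam
        linarith⟩

end sound

/-- the goal reached by a path of branchings (newest first), given by their codes and the numbers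
of the chosen pieces -/
def goalOf10 (P : Prm) : List (ℕ × ℕ) → List Fm
  | [] => []
  | s :: p => rowT P ((pcs10 (Nat.mod s.1 8) (Nat.div s.1 8)).getD s.2 zero) :: goalOf10 P p

/-- the run of a certificate some of whose goals are treated elsewhere -/
def runT10 (P : Prm) : List ℕ → List (List (ℕ × ℕ)) → List (List Fm) → Bool
  | [], _, gs => gs.isEmpty
  | n :: ns, ss, gs => match gs with
    | [] => false
    | g :: gs => bif Nat.beq (Nat.mod n 8) 7 then
        !ss.isEmpty && (leq g (goalOf10 P (ss.headD [])) && runT10 P ns ss.tail gs)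
      else bif Nat.beq (Nat.mod n 8) 0 then leafOk (baseR P) g (Nat.div n 8) && runT10 P ns ss gs
      else valid10 (Nat.mod n 8) (Nat.div n 8) &&
        runT10 P ns ss (expand P g gs (pcs10 (Nat.mod n 8) (Nat.div n 8)))

section sound

variable {v w : Fin 3 → Fin 8 → ℝ} {lam δ t : ℝ}

theorem runT10_sound (P : Prm) (hd : 0 < P.den) (hx : ∀ j, 0 ≤ xx v w lam δ j) (hw : Wt v w)
    (hb : ∀ f ∈ baseR P, ∃ r, Rep (xx v w lam δ) f r ∧ 0 ≤ r)
    (hf : Fail10 v w (P.th lam + 1000 * δ)) : ∀ (ns : List ℕ) (ss : List (List (ℕ × ℕ)))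
    (gs : List (List Fm)), (∀ s ∈ ss, Goal (xx v w lam δ) (goalOf10 P s)) →
    runT10 P ns ss gs = true → ∀ g ∈ gs, Goal (xx v w lam δ) g := by
  intro ns
  induction ns with
  | nil =>
    intro ss gs _ h g hg
    have h' : gs.isEmpty = true := h
    rw [List.isEmpty_iff] at h'
    rw [h'] at hg
    exact absurd hg List.not_mem_nil
  | cons n ns ih =>
    intro ss gs hs h g hg
    cases gs with
    | nil => exact absurd hg List.not_mem_nil
    | cons g₀ gs =>
      have h' : (bif Nat.beq (Nat.mod n 8) 7 then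
          !ss.isEmpty && (leq g₀ (goalOf10 P (ss.headD [])) && runT10 P ns ss.tail gs)
        else bif Nat.beq (Nat.mod n 8) 0 then
          leafOk (baseR P) g₀ (Nat.div n 8) && runT10 P ns ss gs
        else valid10 (Nat.mod n 8) (Nat.div n 8) &&
          runT10 P ns ss (expand P g₀ gs (pcs10 (Nat.mod n 8) (Nat.div n 8)))) = true := h
      cases hk7 : Nat.beq (Nat.mod n 8) 7
      · rw [hk7, cond_false] at h'
        cases hk : Nat.beq (Nat.mod n 8) 0
        · rw [hk, cond_false, Bool.and_eq_true] at h'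
          obtain ⟨h1, h2⟩ := h'
          have h3 := ih _ _ hs h2
          rcases List.mem_cons.1 hg with rfl | hg'
          · intro hrows
            obtain ⟨y, hy, f, hfm, hrep⟩ := node_sound10 (lam := lam) (δ := δ) hw hf _ _ h1
            refine h3 _ (expand_mem P g gs _ f hfm) ?_
            intro f' hf'
            rcases List.mem_cons.1 hf' with rfl | hf''
            · refine ⟨_, rep_sub (rep_mul P.den hrep) (rep_tf P hd), ?_⟩
              have hd' : (0 : ℝ) < P.den := by exact_mod_cast hd
              nlinarith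
            · exact hrows f' hf''
          · exact h3 g (expand_mem' P g₀ gs _ g hg')
        · rw [hk, cond_true, Bool.and_eq_true] at h'
          obtain ⟨h1, h2⟩ := h'
          rcases List.mem_cons.1 hg with rfl | hg'
          · intro hrows
            exact leafOk_sound hx _ _ _ hb hrows h1
          · exact ih ss gs hs h2 g hg'
      · rw [hk7, cond_true] at h'
        cases ss with
        | nil => exact absurd h' (by simp)
        | cons s ss =>
          have h'' : (true && (leq g₀ (goalOf10 P s) && runT10 P ns ss gs)) = true := h'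
          rw [Bool.true_and, Bool.and_eq_true] at h''
          obtain ⟨h1, h2⟩ := h''
          rcases List.mem_cons.1 hg with rfl | hg'
          · rw [leq_eq _ _ h1]
            exact hs s List.mem_cons_self
          · exact ih ss gs (fun s' hs' => hs s' (List.mem_cons_of_mem _ hs')) h2 g hg'

/-- a successful run with its parts shows that not all bounds fail -/
theorem no_fail11 (P : Prm) (ns : List ℕ) (ss : List (List (ℕ × ℕ)))
    (hrun : runT10 P ns ss [[]] = true)
    (hss : ∀ s ∈ ss, ∃ ms : List ℕ, run10 P ms [goalOf10 P s] = true) (hd : 0 < P.den)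
    (lam δ : ℝ) (hl : 0 ≤ lam) (hδ : 0 ≤ δ) (hlo : (P.lon : ℝ) ≤ P.lod * lam)
    (hhi : P.hid * lam ≤ P.hin) (v w : Fin 3 → Fin 8 → ℝ) (hP : Poly 7 lam δ v w)
    (h : Fail10 v w (P.th lam + 1000 * δ)) : False := by
  have key : ∀ v w : Fin 3 → Fin 8 → ℝ, Poly 7 lam δ v w → Fail10 v w (P.th lam + 1000 * δ) →
      cost v 2 univ ≤ cost v 1 univ → False := by
    intro v w hP h hle
    have hb := base_sound P hP (wt_of hP) hle hlo hhi
    refine runT10_sound P hd (xx_nonneg hP hl hδ) (wt_of hP) hb
      h ns ss [[]] (fun s hs => ?_) hrun [] List.mem_cons_self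
      (fun f hf => absurd hf List.not_mem_nil)
    obtain ⟨ms, hms⟩ := hss s hs
    exact run10_sound P hd (xx_nonneg hP hl hδ) (wt_of hP) hb h ms [goalOf10 P s] hms _
      List.mem_cons_self
  rcases le_total (cost v 2 univ) (cost v 1 univ) with hc | hc
  · exact key v w hP h hc
  · refine key (fun j => v (sw j)) (fun j => w (sw j)) ?_ (fail10_sw h) hc
    exact ⟨fun j i => hP.v_nonneg _ i, fun j i hi => hP.w_eq _ i hi, fun j => hP.w_last _,
      hP.w0, hP.w2, hP.w2', hP.w1, hP.w1', by
        have := hP.tot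
        have e : ∀ j, cost (fun j => v (sw j)) j univ = cost v (sw j) univ := fun j => rfl
        rw [e, e, e]
        change cost v 0 univ + cost v 2 univ + cost v 1 univ ≤ lam
        linarith⟩

end sound

end Pool.Agent.U663.DP
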