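import Mathlib
import Pool.Agent.U663.AB.Seg
import Pool.Agent.U663.DP.Cel5
import Pool.Agent.U663.DP.Chk10

/-!
# From a certificate to the count, with the second difference bound
-/

set_option autoImplicit false

namespace Pool.Agent.U663.DP

open Finset Pool.Agent.H785R2.ABC Pool.Agent.H705R2.ABC Pool.Agent.W221.ABC7 Pool.Agent.U663.AB

/-- a certificate gives a count -/
theorem count_seg10 (P : Prm) (ns : List ℕ) (hrun : run10 P ns [[]] = true) (hd : 0 < P.den)
    (lam : ℝ) (hl : 0 ≤ lam) (hlo : (P.lon : ℝ) ≤ P.lod * lam) (hhi : P.hid * lam ≤ P.hin)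
    (h0 : 0 ≤ P.th lam) : StmtCount lam (P.th lam) :=
  count_of7 basics lam _ h0 (cell_bound10 basics (PO.stmtPoly_of basics) mcell' stmtEst' stmtEst2'
    stmtDp' stmtDc' bridge' lam _
      (fun δ hδ v w hP hf => no_fail10 P ns hrun hd lam δ hl hδ hlo hhi v w hP hf))

/-- a certificate in parts gives a count -/
theorem count_seg11 (P : Prm) (ns : List ℕ) (ss : List (List (ℕ × ℕ)))
    (hrun : runT10 P ns ss [[]] = true)
    (hss : ∀ s ∈ ss, ∃ ms : List ℕ, run10 P ms [goalOf10 P s] = true) (hd : 0 < P.den)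
    (lam : ℝ) (hl : 0 ≤ lam) (hlo : (P.lon : ℝ) ≤ P.lod * lam) (hhi : P.hid * lam ≤ P.hin)
    (h0 : 0 ≤ P.th lam) : StmtCount lam (P.th lam) :=
  count_of7 basics lam _ h0 (cell_bound10 basics (PO.stmtPoly_of basics) mcell' stmtEst' stmtEst2'
    stmtDp' stmtDc' bridge' lam _
      (fun δ hδ v w hP hf => no_fail11 P ns ss hrun hss hd lam δ hl hδ hlo hhi v w hP hf))

end Pool.Agent.U663.DP
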