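import Mathlib
import Pool.Agent.U663.DP.Seg10
import Pool.Agent.U663.DP.Ex
import Pool.Agent.U663.DP.Q1
import Pool.Agent.U663.DP.Q2
import Pool.Agent.U663.DP.Q3
import Pool.Agent.U663.DP.Q4
import Pool.Agent.U663.AB.P6

/-!
# The count of abc-triples with `rad (abc) ≤ c ^ lam`, `0 < lam ≤ 1`
-/

set_option autoImplicit false

namespace Pool.Agent.U663.DP

open Pool.Agent.H705R2.ABC Pool.Agent.W221.ABC7 Pool.Agent.U663.AB

/-- between `9/16` and `3/4` -/
theorem count_q1 (lam : ℝ) (h1 : 9 / 16 ≤ lam) (h2 : lam ≤ 3 / 4) :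
    StmtCount lam ((16 * lam + 1) / 32) := by
  rcases le_total lam (13 / 20) with h | h
  · have := count_seg10 Q1.prm Q1.dat Q1.run_ok (by norm_num [Q1.prm]) lam (by linarith)
      (by simp only [Q1.prm]; push_cast; linarith) (by simp only [Q1.prm]; push_cast; linarith)
      (by simp only [Prm.th, Q1.prm]; norm_num; linarith)
    simpa [Prm.th, Q1.prm] using this
  · have := count_seg10 Q2.prm Q2.dat Q2.run_ok (by norm_num [Q2.prm]) lam (by linarith)
      (by simp only [Q2.prm]; push_cast; linarith) (by simp only [Q2.prm]; push_cast; linarith)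
      (by simp only [Prm.th, Q2.prm]; norm_num; linarith)
    simpa [Prm.th, Q2.prm] using this

/-- between `3/4` and `19/20` -/
theorem count_q2 (lam : ℝ) (h1 : 3 / 4 ≤ lam) (h2 : lam ≤ 19 / 20) :
    StmtCount lam ((61 * lam + 3) / 120) := by
  rcases le_total lam (17 / 20) with h | h
  · have := count_seg10 Q3.prm Q3.dat Q3.run_ok (by norm_num [Q3.prm]) lam (by linarith)
      (by simp only [Q3.prm]; push_cast; linarith) (by simp only [Q3.prm]; push_cast; linarith)
      (by simp only [Prm.th, Q3.prm]; norm_num; linarith)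
    simpa [Prm.th, Q3.prm] using this
  · have := count_seg10 Q4.prm Q4.dat Q4.run_ok (by norm_num [Q4.prm]) lam (by linarith)
      (by simp only [Q4.prm]; push_cast; linarith) (by simp only [Q4.prm]; push_cast; linarith)
      (by simp only [Prm.th, Q4.prm]; norm_num; linarith)
    simpa [Prm.th, Q4.prm] using this

/-- between `19/20` and `1` -/
theorem count_q3 (lam : ℝ) (h1 : 19 / 20 ≤ lam) (h2 : lam ≤ 1) :
    StmtCount lam ((52 * lam + 4) / 105) := by
  have := count_seg9 P6.prm P6.top P6.ss P6.top_ok P6.parts_ok (by norm_num [P6.prm]) lam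
    (by linarith)
    (by simp only [P6.prm]; push_cast; linarith) (by simp only [P6.prm]; push_cast; linarith)
    (by simp only [Prm.th, P6.prm]; norm_num; linarith)
  simpa [Prm.th, P6.prm] using this

/-- **The count.** -/
theorem count_Gx (lam : ℝ) (h0 : 0 < lam) (h1 : lam ≤ 1) : StmtCount lam (Gx lam) := by
  unfold Gx
  split_ifs with h2 h3 h4
  · exact main5 lam h0 (by linarith)
  · exact count_q1 lam (by linarith) h3
  · exact count_q2 lam (by linarith) h4
  · exact count_q3 lam (by linarith) h1

end Pool.Agent.U663.DP
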